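import Pool.Agent.Y706.BI.Defs

/-!
# Project BI: the statements of the jobs
-/

namespace Pool.Agent.Y706.BI

open Pool.Agent.W277.UB Pool.Agent.W277.UG Pool.Agent.W277.UH Finset Polynomial

universe u v w

/-- GRN: properties of the Green function and of the pairing -/
def S_GRN : Prop := ∀ (Ω : Type u) [NormedField Ω] [IsUltrametricDist Ω] [IsAlgClosed Ω],
  (∀ n : ℕ, n ≠ 0 → ‖(n : Ω)‖ = 1) → ∀ T : BB Ω,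
  0 ≤ T.ρ ∧
  (∀ X : UV Ω, -(2 * T.ρ) ≤ hh T.S X ∧ hh T.S X ≤ 0) ∧
  (∀ X : UV Ω, -(2 * T.ρ / ((T.S.d : ℝ) - 1)) ≤ G0 T.S X ∧ G0 T.S X ≤ 0) ∧
  (∀ X : UV Ω, G0 T.S (fU T.S X) = T.S.d * G0 T.S X - hh T.S X) ∧
  (∀ (n : ℕ) (X : UV Ω), Real.log ‖T.S.F^[n] X.1‖ =
    (T.S.d : ℝ) ^ n * G0 T.S X - G0 T.S ((fU T.S)^[n] X)) ∧
  (∀ X Y : UV Ω, eqv X Y → hh T.S X = hh T.S Y ∧ G0 T.S X = G0 T.S Y ∧
    eqv (fU T.S X) (fU T.S Y) ∧ ∀ Z, gg T.S X Z = gg T.S Y Z ∧ (eqv X Z ↔ eqv Y Z)) ∧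
  (∀ X Y : UV Ω, gg T.S X Y = gg T.S Y X) ∧
  (∀ (Y : UV Ω) (l : Fin T.S.d), eqv (fU T.S (rt T.S Y l)) Y) ∧
  (∀ X Y : UV Ω, ¬ eqv (fU T.S X) Y →
    ∑ l, gg T.S X (rt T.S Y l) = gg T.S (fU T.S X) Y) ∧
  (∀ X Y : UV Ω, ¬ eqv X Y → -(2 * T.ρ / ((T.S.d : ℝ) - 1)) ≤ gg T.S X Y)

/-- POS: the critical points have positive pairing -/
def S_POS : Prop := ∀ (Ω : Type u) [NormedField Ω] [IsUltrametricDist Ω] [IsAlgClosed Ω],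
  (∀ n : ℕ, n ≠ 0 → ‖(n : Ω)‖ = 1) → ∀ T : BB Ω, 0 < T.ρ → T.ρ / 4 ≤ LC T

/-- COV: points with large expansion are close to the roots of two given points -/
def S_COV : Prop := ∀ (Ω : Type u) [NormedField Ω] [IsUltrametricDist Ω] [IsAlgClosed Ω],
  (∀ n : ℕ, n ≠ 0 → ‖(n : Ω)‖ = 1) → ∀ (T : BB Ω) (J : ℕ) (b₁ b₂ : UV Ω),
  ‖wd b₁.1 b₂.1‖ = 1 → ∀ (c₁ c₂ : Ω) (η₁ η₂ : Fin (T.S.iter J).d → UV Ω),
  (T.S.iter J).IsRS b₁.1 c₁ (fun l => (η₁ l).1) →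
  (T.S.iter J).IsRS b₂.1 c₂ (fun l => (η₂ l).1) →
  ∀ (X : UV Ω) (s : ℝ), 0 ≤ s →
  (∀ j < J, ¬ eqv ((fU T.S)^[j] X) (e1 Ω) ∧ ¬ eqv ((fU T.S)^[j] X) (e2 Ω)) →
  s + 4 * T.ρ < ∑ j ∈ range J, ee T ((fU T.S)^[j] X) →
  ∃ l, ‖wd X.1 (η₁ l).1‖ ≤ Real.exp (-s) ∨ ‖wd X.1 (η₂ l).1‖ ≤ Real.exp (-s)

open Classical in
/-- LLN: the law of large numbers (abstract) -/
def S_LLN : Prop := ∀ (X : Type u) (d : ℕ), 2 ≤ d → ∀ (f : X → X) (r : X → Fin d → X)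
  (E : X → X → Prop), Equivalence E → (∀ x y, E x y → E (f x) (f y)) →
  (∀ y l, E (f (r y l)) y) → ∀ g : X → X → ℝ, (∀ x y, g x y = g y x) →
  (∀ x x' y, E x x' → g x y = g x' y) →
  (∀ x y, ¬ E (f x) y → ∑ l, g x (r y l) = g (f x) y) →
  ∀ ρ : ℝ, 0 < ρ → (∀ x y, ¬ E x y → -(2 * ρ) ≤ g x y) →
  ∀ (c₁ c₂ : X) (L κ : ℝ), ρ / 4 ≤ L → 0 ≤ κ → κ ≤ d → ∀ (b : X) (n : ℕ),
  (∀ j ≤ n, (¬ E (f^[j] c₁) b ∧ g (f^[j] c₁) b ≤ 2 * ρ) ∧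
    ¬ E (f^[j] c₂) b ∧ g (f^[j] c₂) b ≤ 2 * ρ) →
  ∀ J : ℕ, 1 ≤ J → J ≤ n →
  (Av r)^[n] (fun y => if ∑ j ∈ range J, (L - κ * (g (f^[j] y) c₁ + g (f^[j] y) c₂)) ≤
    J * L / 2 then (1 : ℝ) else 0) b ≤ 20000 * (d : ℝ) ^ 4 / J

/-- TREE: iterated roots form a root system of the iterate -/
def S_TREE : Prop := ∀ (Ω : Type u) [NormedField Ω] [IsUltrametricDist Ω] [IsAlgClosed Ω]
  (S : HS Ω) (b : UV Ω) (n : ℕ), ∃ (c : Ω) (η : Fin (S.iter n).d → UV Ω),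
  (S.iter n).IsRS b.1 c (fun l => (η l).1) ∧
  (∀ φ : UV Ω → ℝ, (Av (rt S))^[n] φ b = (∑ l, φ (η l)) / ((S.iter n).d : ℝ)) ∧
  ∀ l, eqv ((fU S)^[n] (η l)) b

open Classical in
/-- TEST: a set which misses a disc of positive mass has large energy -/
def S_TEST : Prop := ∀ (Ω : Type u) [NormedField Ω] [IsUltrametricDist Ω] [IsAlgClosed Ω],
  (∀ n : ℕ, n ≠ 0 → ‖(n : Ω)‖ = 1) → ∀ (T : BB Ω) (B : Fam Ω) (n : ℕ) (ι : Type u) [Fintype ι]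
  [Nonempty ι] (p : ι → UV Ω), (∀ i j, i ≠ j → ¬ eqv (p i) (p j)) →
  ∀ (y : UV Ω) (s₁ s₂ κ t : ℝ), 0 ≤ s₁ → s₁ < s₂ → 0 ≤ t → ∀ I : Set ℕ, I.Infinite →
  (∀ i ∈ I, ∃ (c : Ω) (η : Fin (T.S.iter n).d → UV Ω),
    (T.S.iter n).IsRS (B.b i) c (fun l => (η l).1) ∧
    κ * ((T.S.iter n).d : ℝ) ≤
      ((univ.filter fun l => ‖wd (η l).1 y.1‖ ≤ Real.exp (-s₂)).card : ℝ)) →
  ((univ.filter fun i => ‖wd (p i).1 y.1‖ < Real.exp (-s₁)).card : ℝ) ≤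
    (κ - t) * Fintype.card ι →
  t ^ 2 * (s₂ - s₁) ≤ (∑ i, ∑ j, if i = j then 0 else gg T.S (p i) (p j)) /
    (Fintype.card ι : ℝ) ^ 2 + (4 * T.ρ + 2 * T.ρ * (T.S.d : ℝ) ^ n + s₂) / Fintype.card ι +
    4 * T.ρ / (T.S.d : ℝ) ^ n

open Classical in
/-- COL: the local dichotomy in balanced coordinates -/
def S_COL : Prop := ∀ d : ℕ, 2 ≤ d → ∀ Cn δ : ℝ, 0 ≤ Cn → 0 < δ →
  ∃ (ε : ℝ) (c N₀ : ℕ), 0 < ε ∧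
  ∀ (Ω : Type u) [NormedField Ω] [IsUltrametricDist Ω] [IsAlgClosed Ω],
  (∀ n : ℕ, n ≠ 0 → ‖(n : Ω)‖ = 1) → ∀ T : BB Ω, T.S.d = d → 0 < T.ρ →
  ∀ (ι : Type u) [Fintype ι] (p : ι → UV Ω), (∀ i j, i ≠ j → ¬ eqv (p i) (p j)) →
  N₀ ≤ Fintype.card ι →
  (ε * T.ρ * (Fintype.card ι : ℝ) ^ 2 ≤ ∑ i, ∑ j, if i = j then 0 else gg T.S (p i) (p j)) ∨
  ∃ (χ : ι → Fin c) (Bd : Finset ι), (Bd.card : ℝ) ≤ δ * Fintype.card ι ∧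
    ∀ i, i ∉ Bd → ∀ j, j ∉ Bd → i ≠ j → χ i = χ j → Cn * T.ρ ≤ gg T.S (p i) (p j)

/-- BAL: balanced coordinates -/
def S_BAL : Prop := ∀ (Ω : Type u) [NormedField Ω] [IsUltrametricDist Ω] [IsAlgClosed Ω],
  (∀ n : ℕ, n ≠ 0 → ‖(n : Ω)‖ = 1) → ∀ (S₀ : HS Ω) (A B U V : Ω × Ω), 2 ≤ S₀.d →
  wd A B ≠ 0 → (∀ X, S₀.F X = (wd X A) ^ S₀.d • U + (wd X B) ^ S₀.d • V) →
  ∃ (P Q : Ω × Ω) (h : wd P Q ≠ 0) (s : Ω) (hs : s ≠ 0) (T : BB Ω), T.S = S₀.conj P Q h s hs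

/-- PAIR: the pairing at a place -/
def S_PAIR : Prop := ∀ (K : Type u) [Field K] [DecidableEq K] (Ω : Type u) [NormedField Ω]
  [IsUltrametricDist Ω] [IsAlgClosed Ω] (ι : K →+* Ω) (ord : K → ℤ),
  (∀ x : K, x ≠ 0 → ‖ι x‖ = Real.exp (-(ord x : ℝ))) → (∀ n : ℕ, n ≠ 0 → ‖(n : Ω)‖ = 1) →
  ∀ d : ℕ, 2 ≤ d → ∀ p q : K[X], p.natDegree ≤ d → q.natDegree = d → IsCoprime p q →
  ∀ P : Finset K, (∀ z ∈ P, q.eval z ≠ 0 ∧ p.eval z / q.eval z ∈ P) → ∀ a : K → ℝ,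
  (∀ z ∈ P, (d : ℝ) * a z = ord (q.eval z) + a (p.eval z / q.eval z)) →
  ∀ S₀ : HS Ω, S₀.F = bF d (p.map ι) (q.map ι) → S₀.d = d →
  S₀.Res = ord (resultant q p d d) →
  ∀ (A B : Ω × Ω) (h : wd A B ≠ 0) (s : Ω) (hs : s ≠ 0) (T : BB Ω), T.S = S₀.conj A B h s hs →
  ∃ X : K → UV Ω, ∀ z ∈ P, ∀ z' ∈ P, z ≠ z' → ¬ eqv (X z) (X z') ∧
    gg T.S (X z) (X z') = (ord (z - z') : ℝ) - a z - a z' +
      (ord (resultant q p d d) : ℝ) / (d * ((d : ℝ) - 1))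

/-- LOC: the local dichotomy at a place -/
def S_LOC : Prop := ∀ d : ℕ, 2 ≤ d → ∀ Cn δ : ℝ, 0 ≤ Cn → 0 < δ →
  ∃ (ε : ℝ) (c N₀ : ℕ), 0 < ε ∧
  ∀ (k : Type v) (K : Type u) [Field k] [CharZero k] [Field K] [Algebra k K] [DecidableEq K]
  (Q : PlaceData.{w} k K) (v : Q.Pl) (p q : K[X]), p.natDegree ≤ d → q.natDegree = d →
  IsCoprime p q → Bic d (p.map (algebraMap K (AlgebraicClosure K)))
    (q.map (algebraMap K (AlgebraicClosure K))) →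
  ∀ P : Finset K, (∀ z ∈ P, q.eval z ≠ 0 ∧ p.eval z / q.eval z ∈ P) → ∀ a : K → ℝ,
  (∀ z ∈ P, (d : ℝ) * a z = Q.ord v (q.eval z) + a (p.eval z / q.eval z)) → ∀ ρ : ℝ,
  ρ = (Q.ord v (resultant q p d d) : ℝ) / (d * ((d : ℝ) - 1)) →
  ∀ L : LD Q v d P a ρ, 1 ≤ L.R → N₀ ≤ P.card →
  (ε * L.R * (P.card : ℝ) ^ 2 ≤ ∑ z ∈ P, ∑ z' ∈ P, if z = z' then 0 else GG Q v a ρ z z') ∨
  ∃ (χ : K → Fin c) (Bd : Finset K), Bd ⊆ P ∧ (Bd.card : ℝ) ≤ δ * P.card ∧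
    ∀ z ∈ P, z ∉ Bd → ∀ z' ∈ P, z' ∉ Bd → z ≠ z' → χ z = χ z' → Cn * L.R ≤ GG Q v a ρ z z'

/-- SLK: the slack at a bad place with a partial colouring -/
def S_SLK : Prop := ∀ (k : Type v) (K : Type u) [Field k] [Field K] [Algebra k K]
  [DecidableEq K] (Q : PlaceData.{w} k K) (v : Q.Pl) (d : ℕ) (P : Finset K) (a : K → ℝ) (ρ : ℝ)
  (L : LD Q v d P a ρ), 2 ≤ d → ∀ m : ℕ, 0 < m → ∀ z : Fin (2 * m) → K, (∀ i, z i ∈ P) →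
  Function.Injective z → ∀ b : Fin (2 * m), cdet Q m z b ≠ 0 →
  ∀ (c : ℕ) (χ : Fin (2 * m) → Fin c) (Gs : Finset (Fin (2 * m))) (lam : ℝ), (L.R : ℝ) ≤ lam →
  (∀ i ∈ Gs, ∀ j ∈ Gs, i ≠ j → χ i = χ j → lam ≤ GG Q v a ρ (z i) (z j)) →
  ((Gs.card : ℝ) - c) * (lam - L.R) - 4 * m * L.R - 8 * m - 4 * Q.loss v * ((m : ℝ) - 1) ≤
    Sl Q v a ρ m z b

/-- GLOB: the global inequality -/
def S_GLOB : Prop := ∀ d Λ : ℕ, 2 ≤ d → ∀ (c : ℕ) (ε : ℝ), 0 < ε → ∃ N₀ M : ℕ,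
  ∀ (k : Type v) (K : Type u) [Field k] [Field K] [Algebra k K] [DecidableEq K]
  (Q : PlaceData.{w} k K) (S : Finset Q.Pl) (P : Finset K) (a : Q.Pl → K → ℝ) (ρ : Q.Pl → ℝ)
  (L : ∀ v, LD Q v d P (a v) (ρ v)), N₀ ≤ P.card →
  (∀ v, v ∉ S → ∀ x ∈ P, ∀ y ∈ P, x ≠ y → Q.ord v (x - y) = 0) →
  (∀ v, v ∉ S → (∀ x ∈ P, a v x = 0) ∧ ρ v = 0) → Q.lossS ⊆ S →
  (∀ x ∈ P, ∑ v ∈ S, (Q.wt v : ℝ) * a v x = 0) →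
  (∑ v ∈ S, (Q.wt v : ℝ) * ρ v = 0) →
  (∀ m, 1 ≤ m → m ≤ M → ∀ b ∈ P, ∀ F : (Fin (2 * m) → K) →ₗ[K] K, F ≠ 0 →
    ∃ C ⊆ P, 1 / (2 * ((d : ℝ) + 1)) * P.card ≤ (C.card : ℝ) ∧ ∀ z ∈ C, F (Phi Q m b z) ≠ 0) →
  (∀ v, 1 ≤ (L v).R → (ε * (L v).R * (P.card : ℝ) ^ 2 ≤
      ∑ z ∈ P, ∑ z' ∈ P, if z = z' then 0 else GG Q v (a v) (ρ v) z z') ∨
    ∃ (χ : K → Fin c) (Bd : Finset K), Bd ⊆ P ∧
      (Bd.card : ℝ) ≤ 1 / (32 * ((d : ℝ) + 1)) * P.card ∧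
      ∀ z ∈ P, z ∉ Bd → ∀ z' ∈ P, z' ∉ Bd → z ≠ z' → χ z = χ z' →
        (4 * (Λ : ℝ) + 16) * (L v).R ≤ GG Q v (a v) (ρ v) z z') →
  (Q.lossT : ℝ) ≤ Λ * ∑ v ∈ S, (Q.wt v : ℝ) * (L v).R →
  ∑ v ∈ S, (Q.wt v : ℝ) * (L v).R = 0

/-- GEN: few generators -/
def S_GEN : Prop := ∀ (F : Type v) (E : Type u) [Field F] [Field E] [Algebra F E]
  [FiniteDimensional F E] (n : ℕ), Module.finrank F E ≤ n → ∀ P : Set E,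
  IntermediateField.adjoin F P = ⊤ →
  ∃ T : Finset E, (T : Set E) ⊆ P ∧ T.card ≤ n ∧ IntermediateField.adjoin F (T : Set E) = ⊤

/-- HGT: a derivation with small loss -/
def S_HGT : Prop := ∀ (k : Type v) (K : Type u) [Field k] [CharZero k] [Field K] [Algebra k K]
  [Algebra (RatFunc k) K] [IsScalarTower k (RatFunc k) K] [FiniteDimensional (RatFunc k) K]
  [DecidableEq K], (∀ x : K, IsAlgebraic k x → ∃ c : k, algebraMap k K c = x) →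
  ∀ n : ℕ, Module.finrank (RatFunc k) K ≤ n → ∀ (P : Finset K) (x0 x1 x2 : K),
  x0 ∈ P → x1 ∈ P → x2 ∈ P → x0 ≠ x1 → x0 ≠ x2 → x1 ≠ x2 →
  IntermediateField.adjoin (RatFunc k) {y | ∃ x ∈ P, x ≠ x2 ∧ y = cross x0 x1 x2 x} = ⊤ →
  (∃ x ∈ P, x ≠ x2 ∧ ∀ c : k, cross x0 x1 x2 x ≠ algebraMap k K c) →
  ∃ Q : PlaceData.{w} k K, ∀ d : ℕ, 2 ≤ d → ∀ (S : Finset Q.Pl) (a : Q.Pl → K → ℝ)
    (ρ : Q.Pl → ℝ) (L : ∀ v, LD Q v d P (a v) (ρ v)),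
    (∀ v, v ∉ S → ∀ x ∈ P, ∀ y ∈ P, x ≠ y → Q.ord v (x - y) = 0) →
    (∀ x ∈ P, ∑ v ∈ S, (Q.wt v : ℝ) * a v x = 0) →
    (∑ v ∈ S, (Q.wt v : ℝ) * ρ v = 0) →
    (Q.lossT : ℝ) ≤ 16 * ((n : ℝ) + 1) ^ 2 * ∑ v ∈ S, (Q.wt v : ℝ) * (L v).R

/-- DSC: descent to the field generated by the cross ratios -/
def S_DSC : Prop := ∀ (E : Type v) (L : Type u) [Field E] [Field L] [Algebra E L]
  [DecidableEq L] (d : ℕ), 2 ≤ d → ∀ p q : L[X], p.natDegree ≤ d → q.natDegree = d →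
  IsCoprime p q → ∀ P : Finset L, (∀ z ∈ P, q.eval z ≠ 0 ∧ p.eval z / q.eval z ∈ P) →
  4 * d + 4 ≤ P.card → ∀ x0 ∈ P, ∀ x1 ∈ P, ∀ x2 ∈ P, x0 ≠ x1 → x0 ≠ x2 → x1 ≠ x2 →
  (∀ x ∈ P, x ≠ x2 → ∃ s : E, algebraMap E L s = cross x0 x1 x2 x) →
  ∃ u w : E[X], IsCoprime u w ∧ max u.natDegree w.natDegree = d ∧
    Cj d (x1 - x2) (-(x0 * (x1 - x2))) (x1 - x0) (-(x2 * (x1 - x0))) p q
      (u.map (algebraMap E L)) (w.map (algebraMap E L))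

/-- CJB: a conjugate of a bicritical map is bicritical -/
def S_CJB : Prop := ∀ (M : Type u) [Field M] [Infinite M] (d : ℕ) (a b c e : M)
  (p q u w : M[X]), p.natDegree ≤ d → q.natDegree ≤ d → u.natDegree ≤ d → w.natDegree ≤ d →
  Cj d a b c e p q u w → Bic d p q → Bic d u w

/-- CJC: transfer of `ConjConst` -/
def S_CJC : Prop := ∀ (k : Type w) (E : Type v) (L : Type u) [Field k] [Field E] [Field L]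
  [Algebra k E] [Algebra E L] [Algebra k L] [IsScalarTower k E L] [Infinite L] (d : ℕ)
  (a b c e : L) (p q : L[X]) (x y : E[X]), p.natDegree ≤ d → q.natDegree ≤ d →
  x.natDegree ≤ d → y.natDegree ≤ d →
  Cj d a b c e p q (x.map (algebraMap E L)) (y.map (algebraMap E L)) →
  ConjConst k x y d → ConjConst k p q d

/-- CJP: points -/
def S_CJP : Prop := ∀ (E : Type v) (L : Type u) [Field E] [Field L] [Algebra E L]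
  (d : ℕ) (a b c e : L) (p q : L[X]) (u w : E[X]), 1 ≤ d → p.natDegree ≤ d → q.natDegree ≤ d →
  IsCoprime u w → max u.natDegree w.natDegree = d →
  Cj d a b c e p q (u.map (algebraMap E L)) (w.map (algebraMap E L)) →
  ∀ (x y : L) (X Y : Option E), q.eval x ≠ 0 → y = p.eval x / q.eval x →
  (X.elim (c * x + e = 0) fun s => c * x + e ≠ 0 ∧ algebraMap E L s * (c * x + e) = a * x + b) →
  (Y.elim (c * y + e = 0) fun s => c * y + e ≠ 0 ∧ algebraMap E L s * (c * y + e) = a * y + b) →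
  ratP1 u w d X = Y

open Classical in
/-- AFF: passage to an affine coordinate -/
def S_AFF : Prop := ∀ (k : Type v) (K : Type u) [Field k] [Infinite k] [Field K] [Algebra k K]
  (d : ℕ), 2 ≤ d → ∀ p q : K[X], IsCoprime p q →
  max p.natDegree q.natDegree = d → ∀ P : Finset (Option K), (∀ z ∈ P, ratP1 p q d z ∈ P) →
  ∃ c : K, (∃ c' : k, c = algebraMap k K c') ∧ some c ∉ P ∧ (pc d q c).natDegree ≤ d ∧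
    (pc d (p - C c * q) c).natDegree = d ∧ IsCoprime (pc d q c) (pc d (p - C c * q) c) ∧
    Set.InjOn (phc c) (P : Set (Option K)) ∧
    (∀ y ∈ P.image (phc c), (pc d (p - C c * q) c).eval y ≠ 0 ∧
      (pc d q c).eval y / (pc d (p - C c * q) c).eval y ∈ P.image (phc c)) ∧
    Cj d 0 1 1 (-c) p q (pc d q c) (pc d (p - C c * q) c)

/-- QUAD: all quadratic maps are bicritical -/
def S_QUAD : Prop := ∀ (M : Type u) [Field M] [IsAlgClosed M] [CharZero M] (p q : M[X]),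
  IsCoprime p q → max p.natDegree q.natDegree = 2 → Bic 2 p q

end Pool.Agent.Y706.BI
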