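import Pool.Agent.Y706.BI.FinB

/-!
# Project BI: the final theorem
-/

namespace Pool.Agent.Y706.BI

open Pool.Agent.W277.UB Pool.Agent.W277.UG Pool.Agent.W277.UH Finset Polynomial

universe u v w

theorem finB (hLOC : S_LOC.{u, u, u}) (hGLOB : S_GLOB.{u, u, u}) (hHGT : S_HGT.{u, u, u})
    (hDSC : S_DSC.{u, u}) (hCJB : S_CJB.{u}) (hCJC : S_CJC.{u, u, u})
    (hCJP : S_CJP.{u, u}) (hAFF : S_AFF.{u, u}) (d n : ℕ) (hd : 2 ≤ d) :
    ∃ N : ℕ, ∀ (k L : Type u) [Field k] [CharZero k] [Field L] [Algebra k L]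
    [Algebra (RatFunc k) L] [IsScalarTower k (RatFunc k) L] [FiniteDimensional (RatFunc k) L],
    (∀ x : L, IsAlgebraic k x → ∃ c : k, algebraMap k L c = x) →
    Module.finrank (RatFunc k) L ≤ n → ∀ p q : L[X], p.natDegree ≤ d → q.natDegree = d →
    IsCoprime p q → Bic d (p.map (algebraMap L (AlgebraicClosure L)))
      (q.map (algebraMap L (AlgebraicClosure L))) →
    ∀ P : Finset L, (∀ z ∈ P, q.eval z ≠ 0 ∧ p.eval z / q.eval z ∈ P) →
    N ≤ P.card → ConjConst k p q d := by
  classical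
  obtain ⟨N, hN⟩ := finA hLOC hGLOB hHGT hDSC hCJC d n hd
  refine ⟨N + (4 * d + 4), ?_⟩
  intro k L _ _ _ _ _ _ _ hcl hfin p q hp hq hco hbic P hP hcard
  obtain ⟨x0, hx0, x1, hx1, x2, hx2, h01, h02, h12⟩ := Finset.two_lt_card.mp
    (show 2 < P.card by omega)
  set Sx : Set L := {y | ∃ x ∈ P, x ≠ x2 ∧ y = cross x0 x1 x2 x} with hSx
  let E : IntermediateField (RatFunc k) L := IntermediateField.adjoin (RatFunc k) Sx
  have hkE : ∀ c : k, algebraMap k L c ∈ E := by
    intro c
    rw [IsScalarTower.algebraMap_apply k (RatFunc k) L]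
    exact E.algebraMap_mem _
  have tow1 : IsScalarTower k (RatFunc k) E := by
    apply IsScalarTower.of_algebraMap_eq
    intro c
    apply Subtype.ext
    exact IsScalarTower.algebraMap_apply k (RatFunc k) L c
  have tow2 : IsScalarTower k E L := by
    apply IsScalarTower.of_algebraMap_eq
    intro c
    rfl
  have hfd : FiniteDimensional (RatFunc k) E := inferInstance
  have hfd2 : FiniteDimensional E L := FiniteDimensional.right (RatFunc k) E L
  have halg : Algebra.IsAlgebraic E L := inferInstance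
  have hclE : ∀ x : E, IsAlgebraic k x → ∃ c : k, algebraMap k E c = x := by
    intro x hx
    obtain ⟨c, hc⟩ := hcl (x : L) hx.algebraMap
    exact ⟨c, Subtype.ext hc⟩
  have hfinE : Module.finrank (RatFunc k) E ≤ n := by
    refine le_trans ?_ hfin
    exact Submodule.finrank_le E.toSubalgebra.toSubmodule
  have hE : ∀ x ∈ P, x ≠ x2 → ∃ s : E, algebraMap E L s = cross x0 x1 x2 x := by
    intro x hx hne
    exact ⟨⟨cross x0 x1 x2 x, IntermediateField.subset_adjoin _ _ ⟨x, hx, hne, rfl⟩⟩, rfl⟩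
  have : Infinite k := inferInstance
  obtain ⟨p2, q2, P2, y0, y1, y2, g1, g2, g3, g4, g5, g6, g7, g8, g9, g10, g11, g12, g13, g14⟩ :=
    finB_aux hDSC hCJB hCJC hCJP hAFF k E L d hd p q hp hq hco hbic P hP (by omega) x0 x1 x2
      hx0 hx1 hx2 h01 h02 h12 hE
  apply g14
  apply hN k E hclE hfinE p2 q2 g1 g2 g3 g4 P2 g5 y0 g6 y1 g7 y2 g8 g9 g10 g11 _ (by omega)
  -- the cross ratios generate
  have hset : {y : E | ∃ x ∈ P2, x ≠ y2 ∧ y = cross y0 y1 y2 x} = {s : E | (s : L) ∈ Sx} := by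
    ext s
    exact g13 s
  rw [hset]
  apply IntermediateField.lift_injective E
  rw [IntermediateField.lift_adjoin, IntermediateField.lift_top]
  show IntermediateField.adjoin (RatFunc k) _ = IntermediateField.adjoin (RatFunc k) Sx
  congr 1
  ext y
  constructor
  · rintro ⟨s, hs, rfl⟩
    exact hs
  · intro hy
    exact ⟨⟨y, IntermediateField.subset_adjoin _ _ hy⟩, hy, rfl⟩

theorem finC (hLOC : S_LOC.{u, u, u}) (hGLOB : S_GLOB.{u, u, u}) (hHGT : S_HGT.{u, u, u})
    (hDSC : S_DSC.{u, u}) (hCJB : S_CJB.{u}) (hCJC : S_CJC.{u, u, u})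
    (hCJP : S_CJP.{u, u}) (hAFF : S_AFF.{u, u}) (d n : ℕ) (hd : 2 ≤ d) :
    ∃ N : ℕ, ∀ (k L : Type u) [Field k] [CharZero k] [Field L] [Algebra k L]
    [Algebra (RatFunc k) L] [IsScalarTower k (RatFunc k) L] [FiniteDimensional (RatFunc k) L],
    (∀ x : L, IsAlgebraic k x → ∃ c : k, algebraMap k L c = x) →
    Module.finrank (RatFunc k) L ≤ n → ∀ p q : L[X], max p.natDegree q.natDegree = d →
    IsCoprime p q → Bic d (p.map (algebraMap L (AlgebraicClosure L)))
      (q.map (algebraMap L (AlgebraicClosure L))) →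
    ∀ P : Finset (Option L), (∀ z ∈ P, ratP1 p q d z ∈ P) →
    N ≤ P.card → ConjConst k p q d := by
  classical
  obtain ⟨N, hN⟩ := finB hLOC hGLOB hHGT hDSC hCJB hCJC hCJP hAFF d n hd
  refine ⟨N, ?_⟩
  intro k L _ _ _ _ _ _ _ hcl hfin p q hmax hco hbic P hP hcard
  have hpd : p.natDegree ≤ d := hmax ▸ le_max_left _ _
  have hqd : q.natDegree ≤ d := hmax ▸ le_max_right _ _
  have : Infinite k := inferInstance
  have : Infinite L := Infinite.of_injective _ (algebraMap k L).injective
  have : Infinite (AlgebraicClosure L) :=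
    Infinite.of_injective _ (algebraMap L (AlgebraicClosure L)).injective
  obtain ⟨c, -, -, hd1, hd2, hco2, hinj2, hst2, hcj2⟩ := hAFF k L d hd p q hco hmax P hP
  have b3 := hcj2.map (algebraMap L (AlgebraicClosure L))
  have b4 := hCJB (AlgebraicClosure L) d _ _ _ _ _ _ _ _ (natDegree_map_le.trans hpd)
    (natDegree_map_le.trans hqd) (natDegree_map_le.trans hd1)
    (natDegree_map_le.trans hd2.le) b3 hbic
  have h1 := hN k L hcl hfin _ _ hd1 hd2 hco2 b4 (P.image (phc c)) hst2
    (by rw [Finset.card_image_of_injOn hinj2]; exact hcard)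
  refine hCJC k L L d 0 1 1 (-c) p q _ _ hpd hqd hd1 hd2.le ?_ h1
  rw [Algebra.algebraMap_self, Polynomial.map_id, Polynomial.map_id]
  exact hcj2

/-- finite invariant sets of preperiodic points -/
lemma exists_inv {X : Type*} (f : X → X) (m : ℕ)
    (h : (m : ℕ∞) < {z : X | (Set.range fun n : ℕ => f^[n] z).Finite}.encard) :
    ∃ P : Finset X, (∀ z ∈ P, f z ∈ P) ∧ m ≤ P.card := by
  classical
  obtain ⟨T, hTs, hT⟩ := Set.exists_subset_encard_eq h.le
  have hTf : T.Finite := Set.finite_of_encard_eq_coe (k := m) hT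
  have h1 : (⋃ z ∈ T, Set.range fun n : ℕ => f^[n] z).Finite :=
    hTf.biUnion fun z hz => hTs hz
  refine ⟨h1.toFinset, ?_, ?_⟩
  · intro z hz
    rw [Set.Finite.mem_toFinset, Set.mem_iUnion₂] at hz ⊢
    obtain ⟨w, hw, n, hn⟩ := hz
    refine ⟨w, hw, n + 1, ?_⟩
    simp only at hn ⊢
    rw [Function.iterate_succ_apply', hn]
  · have h3 : hTf.toFinset ⊆ h1.toFinset := by
      intro z hz
      rw [Set.Finite.mem_toFinset] at hz ⊢
      rw [Set.mem_iUnion₂]
      exact ⟨z, hz, 0, rfl⟩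
    have h4 := Finset.card_le_card h3
    have h5 : (hTf.toFinset.card : ℕ∞) = m := by
      rw [← hT, hTf.encard_eq_coe_toFinset_card]
    have h6 : hTf.toFinset.card = m := by exact_mod_cast h5
    omega

/-- **Strong uniform boundedness for bicritical maps.** -/
theorem final_of (hLOC : S_LOC.{u, u, u}) (hGLOB : S_GLOB.{u, u, u}) (hHGT : S_HGT.{u, u, u})
    (hDSC : S_DSC.{u, u}) (hCJB : S_CJB.{u}) (hCJC : S_CJC.{u, u, u})
    (hCJP : S_CJP.{u, u}) (hAFF : S_AFF.{u, u}) (hQUAD : S_QUAD.{u}) :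
    ∃ N : ℕ → ℕ → ℕ, ∀ (k : Type v) (L : Type u) [Field k] [CharZero k] [Field L] [Algebra k L]
    (t : L), Transcendental k t → FiniteDimensional (IntermediateField.adjoin k {t}) L →
    ∀ (n d : ℕ), Module.finrank (IntermediateField.adjoin k {t}) L ≤ n → 2 ≤ d →
    ∀ p q : L[X], IsCoprime p q → max p.natDegree q.natDegree = d →
    (d = 2 ∨ Bic d (p.map (algebraMap L (AlgebraicClosure L)))
      (q.map (algebraMap L (AlgebraicClosure L)))) →
    (¬ ∃ a b c e : L, a * e - b * c ≠ 0 ∧ ∃ u w : L[X], (u ≠ 0 ∨ w ≠ 0) ∧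
      u.natDegree ≤ d ∧ w.natDegree ≤ d ∧ (∀ n, IsAlgebraic k (u.coeff n)) ∧
      (∀ n, IsAlgebraic k (w.coeff n)) ∧
      (C a * p + C b * q) * ∑ i ∈ Finset.range (d + 1),
        C (w.coeff i) * (C a * X + C b) ^ i * (C c * X + C e) ^ (d - i) =
      (C c * p + C e * q) * ∑ i ∈ Finset.range (d + 1),
        C (u.coeff i) * (C a * X + C b) ^ i * (C c * X + C e) ^ (d - i)) →
    {z : Option L | (Set.range fun m : ℕ => (ratP1 p q d)^[m] z).Finite}.encard ≤
      ((N n d : ℕ) : ℕ∞) := by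
  classical
  have h1 : ∀ n d : ℕ, ∃ N : ℕ, 2 ≤ d → ∀ (k L : Type u) [Field k] [CharZero k] [Field L]
      [Algebra k L] [Algebra (RatFunc k) L] [IsScalarTower k (RatFunc k) L]
      [FiniteDimensional (RatFunc k) L],
      (∀ x : L, IsAlgebraic k x → ∃ c : k, algebraMap k L c = x) →
      Module.finrank (RatFunc k) L ≤ n → ∀ p q : L[X], max p.natDegree q.natDegree = d →
      IsCoprime p q → Bic d (p.map (algebraMap L (AlgebraicClosure L)))
        (q.map (algebraMap L (AlgebraicClosure L))) →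
      ∀ P : Finset (Option L), (∀ z ∈ P, ratP1 p q d z ∈ P) →
      N ≤ P.card → ConjConst k p q d := by
    intro n d
    by_cases hd : 2 ≤ d
    · obtain ⟨N, hN⟩ := finC hLOC hGLOB hHGT hDSC hCJB hCJC hCJP hAFF d n hd
      exact ⟨N, fun _ => hN⟩
    · exact ⟨0, fun h => absurd h hd⟩
  choose N hN using h1
  refine ⟨N, ?_⟩
  intro k L _ _ _ _ t ht hfd n d hn hd p q hco hmax hbic hiso
  obtain ⟨inst, hst, hfin, hle⟩ := Pool.Agent.W277.UD.exists_ratAlg k L t ht
  have : CharZero (algebraicClosure k L) := charZero_of_injective_algebraMap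
    (algebraMap k (algebraicClosure k L)).injective
  have halg : ∀ x : L, IsAlgebraic (algebraicClosure k L) x →
      ∃ c : algebraicClosure k L, algebraMap (algebraicClosure k L) L c = x := by
    intro y hy
    have h1 : IsAlgebraic k y := hy.restrictScalars k
    exact ⟨⟨y, h1.isIntegral⟩, rfl⟩
  have hbic' : Bic d (p.map (algebraMap L (AlgebraicClosure L)))
      (q.map (algebraMap L (AlgebraicClosure L))) := by
    rcases hbic with h2 | h2
    · subst h2
      have : CharZero L := charZero_of_injective_algebraMap (algebraMap k L).injective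
      have : CharZero (AlgebraicClosure L) := charZero_of_injective_algebraMap
        (algebraMap L (AlgebraicClosure L)).injective
      apply hQUAD
      · obtain ⟨u, w, h⟩ := hco
        refine ⟨u.map (algebraMap L _), w.map (algebraMap L _), ?_⟩
        rw [← Polynomial.map_mul, ← Polynomial.map_mul, ← Polynomial.map_add, h,
          Polynomial.map_one]
      · rw [natDegree_map, natDegree_map]
        exact hmax
    · exact h2
  by_contra hcon
  push Not at hcon
  obtain ⟨P, hP, hcard⟩ := exists_inv _ _ hcon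
  obtain ⟨a, b, c, e, hdet, u, w, hne, hu, hw, hid⟩ :=
    hN n d hd (algebraicClosure k L) L halg (hle.trans hn) p q hmax hco hbic' P hP hcard
  have hinj := (algebraMap (algebraicClosure k L) L).injective
  refine hiso ⟨a, b, c, e, hdet, u.map (algebraMap _ L), w.map (algebraMap _ L), ?_,
    natDegree_map_le.trans hu, natDegree_map_le.trans hw, fun n => ?_, fun n => ?_, ?_⟩
  · rcases hne with h | h
    · exact Or.inl ((Polynomial.map_ne_zero_iff hinj).mpr h)
    · exact Or.inr ((Polynomial.map_ne_zero_iff hinj).mpr h)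
  · rw [coeff_map]
    exact mem_algebraicClosure_iff.mp (u.coeff n).2
  · rw [coeff_map]
    exact mem_algebraicClosure_iff.mp (w.coeff n).2
  · unfold Pool.Agent.W277.UH.hc hev at hid
    simpa using hid

end Pool.Agent.Y706.BI
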