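import Pool.Agent.Y706.BI.Stm

/-!
# Project BI: the local dichotomy at a place
-/

namespace Pool.Agent.Y706.BI

open Pool.Agent.W277.UB Pool.Agent.W277.UG Pool.Agent.W277.UH Finset Polynomial

universe u v w

lemma natDegree_lin_le {M : Type*} [Field M] (d : ℕ) (u v a b c e : M) :
    (C u * (C a * X - C b) ^ d + C v * (C c * X - C e) ^ d : M[X]).natDegree ≤ d := by
  have h : ∀ a b : M, ((C a * X - C b) ^ d : M[X]).natDegree ≤ d := by
    intro a b
    refine natDegree_pow_le.trans ?_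
    have h1 : (C a * X - C b : M[X]).natDegree ≤ 1 := by
      refine (natDegree_sub_le _ _).trans (max_le ?_ (by simp))
      exact (natDegree_C_mul_le _ _).trans natDegree_X_le
    calc d * _ ≤ d * 1 := Nat.mul_le_mul_left _ h1
      _ = d := mul_one d
  refine (natDegree_add_le _ _).trans (max_le ?_ ?_)
  · exact (natDegree_C_mul_le _ _).trans (h _ _)
  · exact (natDegree_C_mul_le _ _).trans (h _ _)

lemma coeff_lin {M : Type*} [Field M] (d : ℕ) (a b : M) :
    ((C a * X - C b) ^ d : M[X]).coeff d = a ^ d := by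
  have h1 : (C a * X - C b : M[X]).natDegree ≤ 1 := by
    refine (natDegree_sub_le _ _).trans (max_le ?_ (by simp))
    exact (natDegree_C_mul_le _ _).trans natDegree_X_le
  have h2 := coeff_pow_of_natDegree_le (m := d) h1
  rw [mul_one] at h2
  rw [h2]
  simp [coeff_C]

lemma hev_bic {M : Type*} [Field M] (d : ℕ) (u v : M) (A B Y : M × M) :
    hev d (C u * (C A.2 * X - C A.1) ^ d + C v * (C B.2 * X - C B.1) ^ d) Y =
      (wd Y A) ^ d * u + (wd Y B) ^ d * v := by
  by_cases hY : Y.2 = 0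
  · have hY' : Y = (Y.1, 0) := Prod.ext rfl hY
    rw [hY', hev_zero]
    rw [coeff_add, coeff_C_mul, coeff_C_mul, coeff_lin, coeff_lin]
    unfold wd
    simp only [zero_mul, sub_zero, mul_pow]
    ring
  · rw [hev_eval d _ (natDegree_lin_le d _ _ _ _ _ _) Y hY]
    simp only [eval_add, eval_mul, eval_pow, eval_sub, eval_C, eval_X]
    have key : ∀ a b : M, Y.2 ^ d * (a * (Y.1 / Y.2) - b) ^ d = (Y.1 * a - Y.2 * b) ^ d := by
      intro a b
      rw [← mul_pow]
      congr 1
      field_simp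
    unfold wd
    rw [mul_add]
    have e1 := key A.2 A.1
    have e2 := key B.2 B.1
    linear_combination u * e1 + v * e2

lemma Bic.map {M N : Type*} [Field M] [Field N] (j : M →+* N) {d : ℕ} {p q : M[X]}
    (h : Bic d p q) : Bic d (p.map j) (q.map j) := by
  obtain ⟨A, B, U, V, hAB, hp, hq⟩ := h
  refine ⟨(j A.1, j A.2), (j B.1, j B.2), (j U.1, j U.2), (j V.1, j V.2), ?_, ?_, ?_⟩
  · have : wd ((j A.1, j A.2) : N × N) (j B.1, j B.2) = j (wd A B) := by
      unfold wd
      simp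
    rw [this]
    exact (map_ne_zero j).mpr hAB
  · rw [hp]
    simp
  · rw [hq]
    simp

/-- the number of ordered pairs of the same colour -/
lemma pairs_colour {K : Type*} [DecidableEq K] (P : Finset K) (m : ℕ) (χ : K → Fin m) :
    (P.card : ℝ) ^ 2 ≤ m * ∑ z ∈ P, ∑ z' ∈ P, if χ z = χ z' then (1 : ℝ) else 0 := by
  have h1 : ∑ z ∈ P, ∑ z' ∈ P, (if χ z = χ z' then (1 : ℝ) else 0) =
      ∑ c : Fin m, ((P.filter fun z => χ z = c).card : ℝ) ^ 2 := by
    have h2 : ∀ z ∈ P, ∑ z' ∈ P, (if χ z = χ z' then (1 : ℝ) else 0) =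
        ∑ c : Fin m, (if χ z = c then (1 : ℝ) else 0) * ((P.filter fun z => χ z = c).card : ℝ) := by
      intro z _
      simp only [ite_mul, one_mul, zero_mul]
      rw [Finset.sum_ite_eq]
      simp only [Finset.mem_univ, if_true]
      rw [Finset.card_filter]
      push_cast
      apply Finset.sum_congr rfl
      intro z' _
      by_cases h : χ z = χ z'
      · rw [if_pos h, if_pos h.symm]
      · rw [if_neg h, if_neg fun h' => h h'.symm]
    rw [Finset.sum_congr rfl h2, Finset.sum_comm]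
    apply Finset.sum_congr rfl
    intro c _
    rw [← Finset.sum_mul, sq]
    congr 1
    rw [Finset.card_filter]
    push_cast
    rfl
  rw [h1]
  have h3 : (P.card : ℝ) = ∑ c : Fin m, ((P.filter fun z => χ z = c).card : ℝ) := by
    have h4 := Finset.card_eq_sum_card_fiberwise (s := P) (t := (Finset.univ : Finset (Fin m)))
      (f := χ) (fun _ _ => Finset.mem_coe.mpr (Finset.mem_univ _))
    rw [h4]
    push_cast
    rfl
  rw [h3]
  have h5 := sq_sum_le_card_mul_sum_sq (s := (Finset.univ : Finset (Fin m)))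
    (f := fun c => ((P.filter fun z => χ z = c).card : ℝ))
  rw [Finset.card_univ, Fintype.card_fin] at h5
  exact h5

/-- same colour pairs have large pairing -/
lemma LD_colour {k : Type*} {K : Type u} [Field k] [Field K] [Algebra k K] [DecidableEq K]
    {Q : PlaceData k K} {v : Q.Pl} {d : ℕ} {P : Finset K} {a : K → ℝ}
    {ρ : ℝ} (L : LD Q v d P a ρ) (hR : 1 ≤ L.R) : ∃ χ : K → Fin (q₀ d), ∀ x ∈ P, ∀ y ∈ P,
    x ≠ y → χ x = χ y → (L.R : ℝ) / (8 * d * (d + 1)) ≤ GG Q v a ρ x y := by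
  obtain ⟨χ, hχ⟩ := L.hC hR
  refine ⟨χ, fun x hx y hy hxy hc => ?_⟩
  have h1 := hχ x hx y hy hxy hc
  have h2 := hχ y hy x hx hxy.symm hc.symm
  have e1' : (L.o x y : ℝ) = Q.ord v (lc L.μ L.lam L.ν x - lc L.μ L.lam L.ν y) := by
    exact_mod_cast L.o_ord hx hy hxy
  have e2' : (L.o y x : ℝ) = Q.ord v (lc L.μ L.lam L.ν y - lc L.μ L.lam L.ν x) := by
    exact_mod_cast L.o_ord hy hx hxy.symm
  rw [← e1'] at h1
  rw [← e2', L.o_symm] at h2
  rw [L.GG_eq hx hy hxy]
  linarith

theorem t_LOC (hGRN : S_GRN.{u}) (hBAL : S_BAL.{u}) (hPAIR : S_PAIR.{u}) (hCOL : S_COL.{u}) :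
    S_LOC.{u, v, w} := by
  intro d hd Cn δ hCn hδ
  have hdR : (2 : ℝ) ≤ d := by exact_mod_cast hd
  have hq0 : 0 < q₀ d := by
    unfold q₀
    positivity
  have hqR : (0 : ℝ) < q₀ d := by exact_mod_cast hq0
  obtain ⟨κ, hκ⟩ : ∃ κ : ℝ, κ = 1 / (8 * (d : ℝ) * (d + 1)) := ⟨_, rfl⟩
  have hκ0 : 0 < κ := by rw [hκ]; positivity
  obtain ⟨κ₂, hκ₂⟩ : ∃ κ₂ : ℝ, κ₂ = κ / (8 * q₀ d) := ⟨_, rfl⟩
  have hκ₂0 : 0 < κ₂ := by rw [hκ₂]; positivity
  obtain ⟨ε', c, N₀, hε', hcol⟩ := hCOL d hd (Cn / κ₂) δ (by positivity) hδ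
  refine ⟨min (κ / (2 * q₀ d)) (ε' * κ₂), c, max (max (N₀ + 1) (4 * q₀ d)) (q₀ d + 1),
    lt_min (by positivity) (by positivity), ?_⟩
  intro k K _ _ _ _ _ Q v p q hp hq hco hbic P hP a ha ρ hρ L hR1 hN
  classical
  have hN1 : N₀ + 1 ≤ P.card := (le_max_left _ _).trans ((le_max_left _ _).trans hN)
  have hN2 : 4 * q₀ d ≤ P.card := (le_max_right _ _).trans ((le_max_left _ _).trans hN)
  have hN3 : q₀ d < P.card := (le_max_right _ _).trans hN
  have hres := res_ne d p q hp hq (by omega) hco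
  have hRR : (1 : ℝ) ≤ L.R := by exact_mod_cast hR1
  obtain ⟨π, hπ0, hπ1⟩ : ∃ π : K, π ≠ 0 ∧ Q.ord v π ≠ 0 := by
    by_contra hπ
    push Not at hπ
    have hρ0 : ρ = 0 := by
      rw [hρ, hπ _ hres]
      simp
    have ha0 : ∀ z ∈ P, a z = 0 := by
      apply stable_zero d hd P (fun z => p.eval z / q.eval z) (fun z hz => (hP z hz).2) a
      intro z hz
      rw [ha z hz, hπ _ (hP z hz).1]
      simp
    have h1 := R_zero hd L hN3 (by
      intro x hx y hy hxy
      unfold GG
      rw [hπ _ (sub_ne_zero.mpr hxy), ha0 x hx, ha0 y hy, hρ0]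
      simp)
    omega
  obtain ⟨Ω, _, _, _, ι, hι⟩ := exists_ext Q v π hπ0 hπ1
  have hlog : ∀ x : K, x ≠ 0 → -Real.log ‖ι x‖ = Q.ord v x := by
    intro x hx
    rw [hι x hx, Real.log_exp, neg_neg]
  have hnatK : ∀ n : ℕ, n ≠ 0 → ((n : K) ≠ 0 ∧ Q.ord v (n : K) = 0) := by
    intro n hn
    have h1 : (n : K) = algebraMap k K (n : k) := by simp
    have h2 : (n : k) ≠ 0 := Nat.cast_ne_zero.mpr hn
    constructor
    · rw [h1]
      exact (_root_.map_ne_zero _).mpr h2
    · rw [h1]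
      exact Q.ord_alg v _ h2
  have hnat : ∀ n : ℕ, n ≠ 0 → ‖(n : Ω)‖ = 1 := by
    intro n hn
    obtain ⟨h1, h2⟩ := hnatK n hn
    have h3 := hι (n : K) h1
    rw [h2, map_natCast] at h3
    rw [h3]
    simp
  have hcoΩ : IsCoprime (p.map ι) (q.map ι) := by
    obtain ⟨u, w, h⟩ := hco
    refine ⟨u.map ι, w.map ι, ?_⟩
    rw [← Polynomial.map_mul, ← Polynomial.map_mul, ← Polynomial.map_add, h, Polynomial.map_one]
  obtain ⟨S₀, hF₀, hd₀, hR₀⟩ := exists_base d (p.map ι) (q.map ι)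
    ((Polynomial.natDegree_map_le).trans hp)
    (by rw [Polynomial.natDegree_map_eq_of_injective ι.injective, hq]) (by omega) hcoΩ
  rw [resultant_map_map] at hR₀
  have hRes₀ : S₀.Res = Q.ord v (resultant q p d d) := by
    have h1 := congrArg Real.log hR₀
    rw [Real.log_exp] at h1
    have := hlog _ hres
    linarith
  -- the bicritical form over `Ω`
  have hbicΩ : Bic d (p.map ι) (q.map ι) := by
    let _ : Algebra K Ω := ι.toAlgebra
    let j : AlgebraicClosure K →ₐ[K] Ω := IsAlgClosed.lift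
    have h1 := hbic.map j.toRingHom
    have h2 : j.toRingHom.comp (algebraMap K (AlgebraicClosure K)) = ι := by
      ext x
      exact j.commutes x
    rw [Polynomial.map_map, Polynomial.map_map, h2] at h1
    exact h1
  obtain ⟨A, B, U, V, hAB, hpB, hqB⟩ := hbicΩ
  have hF : ∀ X, S₀.F X = (wd X A) ^ S₀.d • U + (wd X B) ^ S₀.d • V := by
    intro X
    rw [hF₀, hd₀]
    unfold bF
    rw [hpB, hqB, hev_bic, hev_bic]
    ext <;> simp
  obtain ⟨P', Q', hPQ, s, hs, T, hT⟩ := hBAL Ω hnat S₀ A B U V (by rw [hd₀]; exact hd) hAB hF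
  have hTd : T.S.d = d := by
    rw [hT]
    exact hd₀
  obtain ⟨X, hX⟩ := hPAIR K Ω ι (Q.ord v) hι hnat d hd p q hp hq hco P hP a ha S₀ hF₀ hd₀ hRes₀
    P' Q' hPQ s hs T hT
  have hGG : ∀ z ∈ P, ∀ z' ∈ P, z ≠ z' → gg T.S (X z) (X z') = GG Q v a ρ z z' := by
    intro z hz z' hz' hne
    rw [(hX z hz z' hz' hne).2, ← hρ]
    rfl
  obtain ⟨g1, -, -, -, -, -, -, -, -, g10⟩ := hGRN Ω hnat T
  have hlow : ∀ z ∈ P, ∀ z' ∈ P, z ≠ z' → -(2 * T.ρ) ≤ GG Q v a ρ z z' := by
    intro z hz z' hz' hne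
    rw [← hGG z hz z' hz' hne]
    refine le_trans ?_ (g10 _ _ (hX z hz z' hz' hne).1)
    rw [hTd, neg_le_neg_iff]
    apply div_le_self (by linarith) (by linarith)
  have hN4 : (4 * (q₀ d : ℝ)) ≤ P.card := by exact_mod_cast hN2
  have hNpos : (0 : ℝ) < P.card := by linarith
  by_cases hcase : 2 * T.ρ ≤ κ * L.R / (4 * q₀ d)
  · -- the easy case
    left
    obtain ⟨χ, hχ⟩ := LD_colour L hR1
    have hsame := pairs_colour P (q₀ d) χ
    set W : ℝ := ∑ z ∈ P, ∑ z' ∈ P, if χ z = χ z' then (1 : ℝ) else 0 with hW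
    have hb : κ * L.R * (W - P.card) - κ * L.R / (4 * q₀ d) * (P.card : ℝ) ^ 2 ≤
        ∑ z ∈ P, ∑ z' ∈ P, if z = z' then 0 else GG Q v a ρ z z' := by
      have h1 : κ * L.R * (W - P.card) - κ * L.R / (4 * q₀ d) * (P.card : ℝ) ^ 2 =
          ∑ z ∈ P, ∑ z' ∈ P, (κ * L.R * (if χ z = χ z' then (1 : ℝ) else 0) -
            κ * L.R * (if z = z' then (1 : ℝ) else 0) - κ * L.R / (4 * q₀ d)) := by
        have h2 : ∑ z ∈ P, ∑ z' ∈ P, (if z = z' then (1 : ℝ) else 0) = P.card := by
          have : ∀ z ∈ P, ∑ z' ∈ P, (if z = z' then (1 : ℝ) else 0) = 1 := by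
            intro z hz
            rw [Finset.sum_ite_eq, if_pos hz]
          rw [Finset.sum_congr rfl this]
          simp
        simp_rw [Finset.sum_sub_distrib, ← Finset.mul_sum]
        rw [← hW, h2]
        simp only [Finset.sum_const, nsmul_eq_mul]
        ring
      rw [h1]
      apply Finset.sum_le_sum
      intro z hz
      apply Finset.sum_le_sum
      intro z' hz'
      have hκR : 0 < κ * L.R := by positivity
      have hκR2 : 0 < κ * L.R / (4 * q₀ d) := by positivity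
      by_cases hzz : z = z'
      · subst hzz
        simp only [if_true]
        linarith
      · rw [if_neg hzz, if_neg hzz]
        by_cases hc : χ z = χ z'
        · rw [if_pos hc]
          have h3 := hχ z hz z' hz' hzz hc
          have h4 : κ * L.R = (L.R : ℝ) / (8 * d * (d + 1)) := by rw [hκ]; ring
          linarith
        · rw [if_neg hc]
          have h3 := hlow z hz z' hz' hzz
          linarith
    refine le_trans ?_ hb
    have h5 : (P.card : ℝ) ^ 2 / q₀ d ≤ W := by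
      rw [div_le_iff₀ hqR]
      linarith
    have h6 : (P.card : ℝ) ≤ (P.card : ℝ) ^ 2 / (4 * q₀ d) := by
      rw [le_div_iff₀ (by positivity)]
      nlinarith
    have h7 : min (κ / (2 * q₀ d)) (ε' * κ₂) * L.R * (P.card : ℝ) ^ 2 ≤
        κ / (2 * q₀ d) * L.R * (P.card : ℝ) ^ 2 := by
      apply mul_le_mul_of_nonneg_right _ (by positivity)
      exact mul_le_mul_of_nonneg_right (min_le_left _ _) (by positivity)
    refine h7.trans ?_
    have h8 : κ * L.R * ((P.card : ℝ) ^ 2 / q₀ d - (P.card : ℝ) ^ 2 / (4 * q₀ d)) ≤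
        κ * L.R * (W - P.card) := by
      apply mul_le_mul_of_nonneg_left _ (by positivity)
      linarith
    refine le_trans (le_of_eq ?_) (sub_le_sub_right h8 _)
    field_simp
    ring
  · -- the interesting case
    push Not at hcase
    have hρT : κ₂ * L.R < T.ρ := by
      rw [hκ₂]
      have : κ / (8 * q₀ d) * L.R = κ * L.R / (4 * q₀ d) / 2 := by
        field_simp
        ring
      rw [this]
      linarith
    have hρ0 : 0 < T.ρ := lt_trans (by positivity) hρT
    have hcardι : Fintype.card {x // x ∈ P} = P.card := Fintype.card_coe P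
    have hmain := hcol Ω hnat T hTd hρ0 {x // x ∈ P} (fun i => X i.1) (by
      intro i j hij
      exact (hX i.1 i.2 j.1 j.2 (fun h => hij (Subtype.ext h))).1) (by rw [hcardι]; omega)
    rw [hcardι] at hmain
    rcases hmain with hmain | hmain
    · left
      have h1 : ∑ i : {x // x ∈ P}, ∑ j : {x // x ∈ P},
          (if i = j then 0 else gg T.S (X i.1) (X j.1)) =
          ∑ z ∈ P, ∑ z' ∈ P, if z = z' then 0 else GG Q v a ρ z z' := by
        rw [← Finset.sum_coe_sort P]
        apply Finset.sum_congr rfl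
        intro i _
        rw [← Finset.sum_coe_sort P]
        apply Finset.sum_congr rfl
        intro j _
        by_cases h : i = j
        · rw [if_pos h, if_pos (congrArg Subtype.val h)]
        · rw [if_neg h, if_neg (fun h' => h (Subtype.ext h')),
            hGG _ i.2 _ j.2 (fun h' => h (Subtype.ext h'))]
      have hmain' : ε' * T.ρ * (P.card : ℝ) ^ 2 ≤
          ∑ z ∈ P, ∑ z' ∈ P, if z = z' then 0 else GG Q v a ρ z z' := by
        rw [← h1]
        convert hmain
      refine le_trans ?_ hmain'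
      apply mul_le_mul_of_nonneg_right _ (by positivity)
      calc min (κ / (2 * q₀ d)) (ε' * κ₂) * L.R ≤ ε' * κ₂ * L.R :=
            mul_le_mul_of_nonneg_right (min_le_right _ _) (by positivity)
        _ = ε' * (κ₂ * L.R) := by ring
        _ ≤ ε' * T.ρ := mul_le_mul_of_nonneg_left hρT.le hε'.le
    · right
      obtain ⟨χ, Bd, hBd, hχ⟩ := hmain
      obtain ⟨x₀, hx₀⟩ : P.Nonempty := Finset.card_pos.mp (by omega)
      refine ⟨fun z => if h : z ∈ P then χ ⟨z, h⟩ else χ ⟨x₀, hx₀⟩, Bd.image Subtype.val, ?_, ?_, ?_⟩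
      · intro z hz
        rw [Finset.mem_image] at hz
        obtain ⟨i, _, rfl⟩ := hz
        exact i.2
      · refine le_trans ?_ hBd
        exact_mod_cast Finset.card_image_le
      · intro z hz hzB z' hz' hzB' hne hc
        beta_reduce at hc
        rw [dif_pos hz, dif_pos hz'] at hc
        have h1 := hχ ⟨z, hz⟩ (fun h => hzB (Finset.mem_image.mpr ⟨_, h, rfl⟩)) ⟨z', hz'⟩
          (fun h => hzB' (Finset.mem_image.mpr ⟨_, h, rfl⟩))
          (fun h => hne (congrArg Subtype.val h)) hc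
        rw [hGG z hz z' hz' hne] at h1
        refine le_trans ?_ h1
        have h2 : Cn / κ₂ * (κ₂ * L.R) = Cn * L.R := by
          field_simp
        rw [← h2]
        exact mul_le_mul_of_nonneg_left hρT.le (by positivity)

end Pool.Agent.Y706.BI
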