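import Mathlib
import Pool.Agent.Y706.BI.Loc
import Pool.Agent.Y706.BI.FinC
import Pool.Agent.Y824.BI.Grn
import Pool.Agent.Y672.BI.Pos
import Pool.Agent.Y405.BI.Cov
import Pool.Agent.Y165.BI.Lln
import Pool.Agent.Y914.BI.Tree
import Pool.Agent.Y328.BI.Test
import Pool.Agent.Y188.BI.Col
import Pool.Agent.Y587.BI.Bal
import Pool.Agent.Y366.BI.Pair
import Pool.Agent.Y496.BI.Slk
import Pool.Agent.Y302.BI.Glob
import Pool.Agent.Y179.BI.Gen
import Pool.Agent.Y523.BI.Hgt
import Pool.Agent.Y484.BI.Dsc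
import Pool.Agent.Y455.BI.Cjb
import Pool.Agent.Y455.BI.Cjp
import Pool.Agent.Y759.BI.Cjc
import Pool.Agent.Y686.BI.Aff
import Pool.Agent.Y686.BI.Quad

/-!
# Strong uniform boundedness for quadratic rational maps and for bicritical maps
-/

namespace Pool.Agent.Y706.BI.Res

open Polynomial

universe u v

/-- The self-map of the projective line `K ∪ {∞}`, where `none` is `∞`, given by the rational
function `p / q`, where `p` and `q` are coprime and `d` is the larger of their degrees: it sends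
`x` to `p(x) / q(x)`, or to `∞` when `q(x) = 0`, and it sends `∞` to the quotient of the
coefficients of degree `d`, or to `∞` when that of `q` is zero. -/
noncomputable def mapP1 {K : Type*} [Field K] (p q : K[X]) (d : ℕ) : Option K → Option K
  | some x => by classical exact if q.eval x = 0 then none else some (p.eval x / q.eval x)
  | none => by classical exact if q.coeff d = 0 then none else some (p.coeff d / q.coeff d)

/-- With `φ(x) = (a x + b) / (c x + e)`, the map `p / q` of degree `d` satisfies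
`φ ∘ (p / q) = (u / w) ∘ φ` for some `a, b, c, e` in `K` with `a e ≠ b c` and some polynomials
`u, w` of degree at most `d`, not both zero, with coefficients algebraic over `k`; the equation is
written with denominators cleared. -/
def IsotrivialOver (k : Type*) {K : Type*} [Field k] [Field K] [Algebra k K] (p q : K[X])
    (d : ℕ) : Prop :=
  ∃ a b c e : K, a * e - b * c ≠ 0 ∧ ∃ u w : K[X], (u ≠ 0 ∨ w ≠ 0) ∧
    u.natDegree ≤ d ∧ w.natDegree ≤ d ∧ (∀ n, IsAlgebraic k (u.coeff n)) ∧
    (∀ n, IsAlgebraic k (w.coeff n)) ∧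
    (C a * p + C b * q) * ∑ i ∈ Finset.range (d + 1),
      C (w.coeff i) * (C a * X + C b) ^ i * (C c * X + C e) ^ (d - i) =
    (C c * p + C e * q) * ∑ i ∈ Finset.range (d + 1),
      C (u.coeff i) * (C a * X + C b) ^ i * (C c * X + C e) ^ (d - i)

/-- The map `p / q` of degree `d` is bicritical over the field `M`: for two different points
`(a₁ : a₂)` and `(b₁ : b₂)` of the projective line, `p` and `q` are linear combinations of
`(a₂ X - a₁) ^ d` and `(b₂ X - b₁) ^ d`. -/
def Bicritical {M : Type*} [Field M] (p q : M[X]) (d : ℕ) : Prop :=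
  ∃ a₁ a₂ b₁ b₂ : M, a₁ * b₂ - a₂ * b₁ ≠ 0 ∧ ∃ u₁ u₂ v₁ v₂ : M,
    p = C u₁ * (C a₂ * X - C a₁) ^ d + C v₁ * (C b₂ * X - C b₁) ^ d ∧
    q = C u₂ * (C a₂ * X - C a₁) ^ d + C v₂ * (C b₂ * X - C b₁) ^ d

/-- There is a function `N` such that the following holds for all `n` and all `d ≥ 2`, every field
`k` of characteristic zero, every `t` transcendental over `k` and every field `L` of degree at most
`n` over `k(t)`. Let `p / q` be a rational map of degree `d` over `L` which is not isotrivial, and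
suppose that `d = 2` or that `p / q` is bicritical over the algebraic closure of `L`. Then `p / q`
has at most `N(n, d)` preperiodic points in the projective line over `L`. -/
theorem result : ∃ N : ℕ → ℕ → ℕ, ∀ (k : Type v) (L : Type u) [Field k] [CharZero k] [Field L]
    [Algebra k L] (t : L), Transcendental k t →
    FiniteDimensional (IntermediateField.adjoin k {t}) L →
    ∀ (n d : ℕ), Module.finrank (IntermediateField.adjoin k {t}) L ≤ n → 2 ≤ d →
    ∀ p q : L[X], IsCoprime p q → max p.natDegree q.natDegree = d →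
    (d = 2 ∨ Bicritical (p.map (algebraMap L (AlgebraicClosure L)))
      (q.map (algebraMap L (AlgebraicClosure L))) d) →
    ¬ IsotrivialOver k p q d →
    {z : Option L | (Set.range fun m : ℕ => (mapP1 p q d)^[m] z).Finite}.encard ≤
      ((N n d : ℕ) : ℕ∞) := by
  have hGRN : Pool.Agent.Y706.BI.S_GRN.{u} := Pool.Agent.Y824.BI.t_GRN
  have hPOS : Pool.Agent.Y706.BI.S_POS.{u} := Pool.Agent.Y672.BI.t_POS hGRN
  have hCOV : Pool.Agent.Y706.BI.S_COV.{u} := Pool.Agent.Y405.BI.t_COV hGRN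
  have hCOL := Pool.Agent.Y188.BI.t_COL.{u} hGRN hPOS hCOV Pool.Agent.Y165.BI.t_LLN
    Pool.Agent.Y914.BI.t_TREE (Pool.Agent.Y328.BI.t_TEST hGRN)
  have hLOC : Pool.Agent.Y706.BI.S_LOC.{u, u, u} := Pool.Agent.Y706.BI.t_LOC hGRN
    Pool.Agent.Y587.BI.t_BAL (Pool.Agent.Y366.BI.t_PAIR hGRN) hCOL
  obtain ⟨N, hN⟩ := Pool.Agent.Y706.BI.final_of.{u, v} hLOC
    (Pool.Agent.Y302.BI.t_GLOB Pool.Agent.Y496.BI.t_SLK)
    (Pool.Agent.Y523.BI.t_HGT Pool.Agent.Y179.BI.t_GEN) Pool.Agent.Y484.BI.t_DSC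
    Pool.Agent.Y455.BI.t_CJB Pool.Agent.Y759.BI.t_CJC Pool.Agent.Y455.BI.t_CJP
    Pool.Agent.Y686.BI.t_AFF Pool.Agent.Y686.BI.t_QUAD
  refine ⟨N, ?_⟩
  intro k L _ _ _ _ t ht hfd n d hn hd p q hco hmax hbic hiso
  have e : mapP1 p q d = Pool.Agent.W277.UH.ratP1 p q d := by
    funext z
    cases z <;> rfl
  rw [e]
  refine hN k L t ht hfd n d hn hd p q hco hmax ?_ hiso
  rcases hbic with h | ⟨a₁, a₂, b₁, b₂, h1, u₁, u₂, v₁, v₂, h2, h3⟩
  · exact Or.inl h
  · exact Or.inr ⟨(a₁, a₂), (b₁, b₂), (u₁, u₂), (v₁, v₂), h1, h2, h3⟩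

end Pool.Agent.Y706.BI.Res
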