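import Pool.Agent.Y706.BI.Stm2

/-!
# Project BI: points of bounded gonality
-/

namespace Pool.Agent.Y706.BI

open Pool.Agent.W277.UB Pool.Agent.W277.UG Pool.Agent.W277.UH Polynomial

universe u v w

/-- points of bounded gonality -/
def S_GON : Prop := ∃ N : ℕ → ℕ → ℕ, ∀ (k : Type v) (K : Type u) [Field k] [CharZero k]
    [Field K] [Algebra k K] (D d : ℕ), 2 ≤ d →
    ∀ p q : K[X], IsCoprime p q → max p.natDegree q.natDegree = d →
    (d = 2 ∨ Bic d (p.map (algebraMap K (AlgebraicClosure K)))
      (q.map (algebraMap K (AlgebraicClosure K)))) →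
    ¬ IsoAlg k (p.map (algebraMap K (AlgebraicClosure K)))
      (q.map (algebraMap K (AlgebraicClosure K))) d →
    {z : Option (AlgebraicClosure K) | (Set.range fun m : ℕ =>
        (ratP1 (p.map (algebraMap K (AlgebraicClosure K)))
          (q.map (algebraMap K (AlgebraicClosure K))) d)^[m] z).Finite ∧
      ∃ t : IntermediateField.adjoin K {x | z = some x}, Transcendental k t ∧
        FiniteDimensional (IntermediateField.adjoin k {t})
          (IntermediateField.adjoin K {x | z = some x}) ∧
        Module.finrank (IntermediateField.adjoin k {t})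
          (IntermediateField.adjoin K {x | z = some x}) ≤ D}.encard ≤ ((N D d : ℕ) : ℕ∞)

end Pool.Agent.Y706.BI
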