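import Pool.Agent.W277.UH.F2
import Pool.Agent.W277.UG.D10
import Pool.Agent.TH450.FH.Glob

/-!
# Project BI: strong uniform boundedness for bicritical maps. Definitions

The language is that of `Pool.Agent.W277.UH.L1` - `L9`: a map of degree `d` is given by a
homogeneous map `S.F` of `Ω × Ω`, where `Ω` is an algebraically closed ultrametric field.
-/

namespace Pool.Agent.Y706.BI

open Pool.Agent.W277.UB Pool.Agent.W277.UG Pool.Agent.W277.UH Finset Polynomial

universe u v w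

section local_part

/-- vectors of norm one -/
abbrev UV (Ω : Type u) [NormedField Ω] := {X : Ω × Ω // ‖X‖ = 1}

variable {Ω : Type u} [NormedField Ω]

lemma UV.ne (X : UV Ω) : X.1 ≠ 0 := by
  intro h
  have := X.2
  rw [h, norm_zero] at this
  exact zero_ne_one this

/-- the vector `W` divided by a scalar of the same size -/
noncomputable def nrm (W : Ω × Ω) (hW : W ≠ 0) : UV Ω :=
  ⟨(exists_unit W hW).choose_spec.choose, (exists_unit W hW).choose_spec.choose_spec.2.1⟩

lemma nrm_spec (W : Ω × Ω) (hW : W ≠ 0) : ∃ t : Ω, t ≠ 0 ∧ W = t • (nrm W hW).1 ∧ ‖t‖ = ‖W‖ :=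
  ⟨(exists_unit W hW).choose, (exists_unit W hW).choose_spec.choose_spec.1,
    (exists_unit W hW).choose_spec.choose_spec.2.2⟩

/-- the same point of the projective line -/
def eqv (X Y : UV Ω) : Prop := wd X.1 Y.1 = 0

/-- the map on vectors of norm one -/
noncomputable def fU (S : HS Ω) (X : UV Ω) : UV Ω := nrm (S.F X.1) (S.nz X.1 X.ne)

/-- the size of the map -/
noncomputable def hh (S : HS Ω) (X : UV Ω) : ℝ := Real.log ‖S.F X.1‖

/-- the Green function (on vectors of norm one) -/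
noncomputable def G0 (S : HS Ω) (X : UV Ω) : ℝ :=
  ∑' n : ℕ, hh S ((fU S)^[n] X) / (S.d : ℝ) ^ (n + 1)

/-- the pairing -/
noncomputable def gg (S : HS Ω) (X Y : UV Ω) : ℝ :=
  -Real.log ‖wd X.1 Y.1‖ + G0 S X + G0 S Y + S.Res / (S.d * ((S.d : ℝ) - 1))

/-- roots -/
noncomputable def rt (S : HS Ω) (Y : UV Ω) (l : Fin S.d) : UV Ω :=
  ⟨(S.roots Y.1 Y.2).choose_spec.choose l,
    (S.roots Y.1 Y.2).choose_spec.choose_spec.2.1 l⟩

/-- the roots `rt S Y` are a root system -/
lemma rt_spec (S : HS Ω) (Y : UV Ω) :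
    S.IsRS Y.1 (S.roots Y.1 Y.2).choose (fun l => (rt S Y l).1) :=
  (S.roots Y.1 Y.2).choose_spec.choose_spec

/-- the average over the roots -/
noncomputable def Av {X : Type*} {d : ℕ} (r : X → Fin d → X) (φ : X → ℝ) (y : X) : ℝ :=
  (∑ l, φ (r y l)) / (d : ℝ)

/-- the two critical points -/
noncomputable def e1 (Ω : Type u) [NormedField Ω] [IsUltrametricDist Ω] : UV Ω := ⟨(1, 0), norm_e1⟩
/-- the two critical points -/
noncomputable def e2 (Ω : Type u) [NormedField Ω] [IsUltrametricDist Ω] : UV Ω := ⟨(0, 1), norm_e2⟩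

/-- A bicritical map in balanced coordinates: `F X = x ^ d U + y ^ d V`, `‖U‖ = ‖V‖ = 1`,
`‖det (U, V)‖ = exp (-2 ρ)`. -/
structure BB (Ω : Type u) [NormedField Ω] [IsUltrametricDist Ω] where
  /-- the map -/
  S : HS Ω
  /-- critical value -/
  U : Ω × Ω
  /-- critical value -/
  V : Ω × Ω
  /-- the size -/
  ρ : ℝ
  hd : 2 ≤ S.d
  hgs : S.gs = 1
  hU : ‖U‖ = 1
  hV : ‖V‖ = 1
  hF : ∀ X, S.F X = X.1 ^ S.d • U + X.2 ^ S.d • V
  hρ : ‖wd U V‖ = Real.exp (-(2 * ρ))
  hRes : S.Res = 2 * S.d * ρ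

variable [IsUltrametricDist Ω]

/-- the pairing of the critical points (times `d - 1`) -/
noncomputable def LC (T : BB Ω) : ℝ := ((T.S.d : ℝ) - 1) * gg T.S (e1 Ω) (e2 Ω)

/-- the logarithm of the expansion -/
noncomputable def ee (T : BB Ω) (X : UV Ω) : ℝ :=
  LC T - ((T.S.d : ℝ) - 1) * (gg T.S X (e1 Ω) + gg T.S X (e2 Ω))

end local_part

section alg

/-- `p / q`, as a map of degree `d`, is bicritical over `M`: up to a factor `p` and `q` are
combinations of the `d`-th powers of two independent linear forms. -/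
def Bic {M : Type*} [Field M] (d : ℕ) (p q : M[X]) : Prop :=
  ∃ A B U V : M × M, wd A B ≠ 0 ∧
    p = C U.1 * (C A.2 * X - C A.1) ^ d + C V.1 * (C B.2 * X - C B.1) ^ d ∧
    q = C U.2 * (C A.2 * X - C A.1) ^ d + C V.2 * (C B.2 * X - C B.1) ^ d

/-- the cross ratio -/
noncomputable def cross {K : Type*} [Field K] (x0 x1 x2 x : K) : K :=
  ((x - x0) * (x1 - x2)) / ((x - x2) * (x1 - x0))

/-- `u / w` is the conjugate of `p / q` by `ψ = (a x + b) / (c x + e)`. -/
def Cj {M : Type*} [Field M] (d : ℕ) (a b c e : M) (p q u w : M[X]) : Prop :=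
  a * e - b * c ≠ 0 ∧ ∃ s : M, s ≠ 0 ∧
    Pool.Agent.W277.UH.hc d u (C a * X + C b) (C c * X + C e) = C s * (C a * p + C b * q) ∧
    Pool.Agent.W277.UH.hc d w (C a * X + C b) (C c * X + C e) = C s * (C c * p + C e * q)

end alg

end Pool.Agent.Y706.BI
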