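import Pool.Agent.Y706.BI.Stm

/-!
# Project BI: the bound when the cross ratios generate the field
-/

namespace Pool.Agent.Y706.BI

open Pool.Agent.W277.UB Pool.Agent.W277.UG Pool.Agent.W277.UH Finset Polynomial

universe u v w

lemma hc_X_one {K : Type*} [Field K] (d : ℕ) (w : K[X]) (hw : w.natDegree ≤ d) :
    Pool.Agent.W277.UH.hc d w (C 1 * X + C 0) (C 0 * X + C 1) = w := by
  unfold Pool.Agent.W277.UH.hc
  have h1 : (C (1 : K) * X + C 0 : K[X]) = X := by simp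
  have h2 : (C (0 : K) * X + C 1 : K[X]) = 1 := by simp
  rw [h1, h2, hev_one d _ (natDegree_map_le.trans hw), eval_map, eval₂_C_X]

lemma conjConst_refl (k : Type u) [Field k] (d : ℕ) (u w : k[X]) (hu : u.natDegree ≤ d)
    (hw : w.natDegree ≤ d) (h : u ≠ 0 ∨ w ≠ 0) : ConjConst k u w d := by
  refine ⟨1, 0, 0, 1, by simp, u, w, h, hu, hw, ?_⟩
  rw [Algebra.algebraMap_self, Polynomial.map_id, Polynomial.map_id, hc_X_one d w hw,
    hc_X_one d u hu]
  simp only [C_1, C_0, one_mul, zero_mul, add_zero, zero_add]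
  ring

theorem finA (hLOC : S_LOC.{u, u, u}) (hGLOB : S_GLOB.{u, u, u}) (hHGT : S_HGT.{u, u, u})
    (hDSC : S_DSC.{u, u}) (hCJC : S_CJC.{u, u, u}) (d n : ℕ) (hd : 2 ≤ d) :
    ∃ N : ℕ, ∀ (k K : Type u) [Field k] [CharZero k] [Field K] [Algebra k K]
    [Algebra (RatFunc k) K] [IsScalarTower k (RatFunc k) K] [FiniteDimensional (RatFunc k) K]
    [DecidableEq K], (∀ x : K, IsAlgebraic k x → ∃ c : k, algebraMap k K c = x) →
    Module.finrank (RatFunc k) K ≤ n → ∀ p q : K[X], p.natDegree ≤ d → q.natDegree = d →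
    IsCoprime p q → Bic d (p.map (algebraMap K (AlgebraicClosure K)))
      (q.map (algebraMap K (AlgebraicClosure K))) →
    ∀ P : Finset K, (∀ z ∈ P, q.eval z ≠ 0 ∧ p.eval z / q.eval z ∈ P) →
    ∀ x0 ∈ P, ∀ x1 ∈ P, ∀ x2 ∈ P, x0 ≠ x1 → x0 ≠ x2 → x1 ≠ x2 →
    IntermediateField.adjoin (RatFunc k) {y | ∃ x ∈ P, x ≠ x2 ∧ y = cross x0 x1 x2 x} = ⊤ →
    N ≤ P.card → ConjConst k p q d := by
  classical
  obtain ⟨ε, c, N₁, hε, hloc⟩ := hLOC d hd (4 * ((16 * (n + 1) ^ 2 : ℕ) : ℝ) + 16)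
    (1 / (32 * ((d : ℝ) + 1))) (by positivity) (by positivity)
  obtain ⟨N₀, M, hglob⟩ := hGLOB d (16 * (n + 1) ^ 2) hd c ε hε
  refine ⟨N₀ + N₁ + 4 * ((M + 3) * (d + 1)) + (3 * d + 4) + q₀ d + (4 * d + 4), ?_⟩
  intro k K _ _ _ _ _ _ _ _ hcl hfin p q hp hq hco hbic P hP x0 hx0 x1 hx1 x2 hx2 h01 h02 h12
    hadj hN
  by_contra hiso
  have hdR : (2 : ℝ) ≤ d := by exact_mod_cast hd
  have hqP : q₀ d < P.card := by omega
  -- some cross ratio is not constant
  have hex : ∃ x ∈ P, x ≠ x2 ∧ ∀ c : k, cross x0 x1 x2 x ≠ algebraMap k K c := by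
    by_contra hcon
    push Not at hcon
    obtain ⟨u, w, huw, hmax, hcj⟩ := hDSC k K d hd p q hp hq hco P hP (by omega) x0 hx0 x1 hx1
      x2 hx2 h01 h02 h12 (by
        intro x hx hne
        obtain ⟨s, hs⟩ := hcon x hx hne
        exact ⟨s, hs.symm⟩)
    have hud : u.natDegree ≤ d := hmax ▸ le_max_left _ _
    have hwd : w.natDegree ≤ d := hmax ▸ le_max_right _ _
    have : Infinite K := by
      have : CharZero K := charZero_of_injective_algebraMap (algebraMap k K).injective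
      infer_instance
    apply hiso
    refine hCJC k k K d _ _ _ _ p q u w hp hq.le hud hwd hcj ?_
    apply conjConst_refl k d u w hud hwd
    by_contra h
    push Not at h
    rw [h.1, h.2] at huw
    exact not_isCoprime_zero_zero huw
  obtain ⟨Q, hQ⟩ := hHGT k K hcl n hfin P x0 x1 x2 hx0 hx1 hx2 h01 h02 h12 hadj hex
  have hres := res_ne d p q hp hq (by omega) hco
  set r := resultant q p d d with hr
  set fz : K → K := fun z => p.eval z / q.eval z with hfz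
  have hf : ∀ z ∈ P, fz z ∈ P := fun z hz => (hP z hz).2
  set E : Finset K := insert r (P.image q.eval ∪ P.offDiag.image fun w => w.1 - w.2) with hE
  set S : Finset Q.Pl := Q.lossS ∪ E.biUnion (fun x => if h : x ≠ 0 then (Q.fin x h).toFinset
    else ∅) with hS
  have hSE : ∀ v, v ∉ S → ∀ x ∈ E, x ≠ 0 → Q.ord v x = 0 := by
    intro v hv x hx hx0
    by_contra h
    apply hv
    rw [hS, Finset.mem_union]
    right
    rw [Finset.mem_biUnion]
    refine ⟨x, hx, ?_⟩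
    rw [dif_pos hx0, Set.Finite.mem_toFinset]
    exact h
  have hrE : r ∈ E := Finset.mem_insert_self _ _
  have hqE : ∀ z ∈ P, q.eval z ∈ E := fun z hz => Finset.mem_insert_of_mem
    (Finset.mem_union_left _ (Finset.mem_image_of_mem _ hz))
  have hxE : ∀ x ∈ P, ∀ y ∈ P, x ≠ y → x - y ∈ E := fun x hx y hy hxy =>
    Finset.mem_insert_of_mem (Finset.mem_union_right _ (Finset.mem_image.mpr
      ⟨(x, y), Finset.mem_offDiag.mpr ⟨hx, hy, hxy⟩, rfl⟩))
  choose a ha using fun v => exists_a d hd P fz hf (fun z => (Q.ord v (q.eval z) : ℝ))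
  set ρ : Q.Pl → ℝ := fun v => (Q.ord v r : ℝ) / (d * ((d : ℝ) - 1)) with hρ
  have hL : ∀ v, Nonempty (LD Q v d P (a v) (ρ v)) := fun v =>
    local_all' Q v d hd p q hp hq hco P hP (a v) (ha v) (ρ v) hres rfl
  let L : ∀ v, LD Q v d P (a v) (ρ v) := fun v => Classical.choice (hL v)
  have hS1 : ∀ v, v ∉ S → ∀ x ∈ P, ∀ y ∈ P, x ≠ y → Q.ord v (x - y) = 0 :=
    fun v hv x hx y hy hxy => hSE v hv _ (hxE x hx y hy hxy) (sub_ne_zero.mpr hxy)
  have hS2 : ∀ v, v ∉ S → (∀ x ∈ P, a v x = 0) ∧ ρ v = 0 := by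
    intro v hv
    constructor
    · apply stable_zero d hd P fz hf
      intro z hz
      rw [ha v z hz, hSE v hv _ (hqE z hz) (hP z hz).1]
      simp
    · simp only [hρ]
      rw [hSE v hv r hrE hres]
      simp
  have hS3 : Q.lossS ⊆ S := Finset.subset_union_left
  have hwa : ∀ x ∈ P, ∑ v ∈ S, (Q.wt v : ℝ) * a v x = 0 := by
    apply stable_zero d hd P fz hf (fun x => ∑ v ∈ S, (Q.wt v : ℝ) * a v x)
    intro z hz
    have h1 := prod_zero Q S (q.eval z) (hP z hz).1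
      (fun v hv => hSE v hv _ (hqE z hz) (hP z hz).1)
    have h2 : ∑ v ∈ S, (Q.wt v : ℝ) * (Q.ord v (q.eval z) : ℝ) = 0 := by exact_mod_cast h1
    have h3 : (d : ℝ) * ∑ v ∈ S, (Q.wt v : ℝ) * a v z =
        ∑ v ∈ S, (Q.wt v : ℝ) * (Q.ord v (q.eval z) : ℝ) +
          ∑ v ∈ S, (Q.wt v : ℝ) * a v (fz z) := by
      rw [Finset.mul_sum, ← Finset.sum_add_distrib]
      apply Finset.sum_congr rfl
      intro v _
      have := ha v z hz
      linear_combination (Q.wt v : ℝ) * this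
    rw [h3, h2, zero_add]
  have hwρ : ∑ v ∈ S, (Q.wt v : ℝ) * ρ v = 0 := by
    have h1 := prod_zero Q S r hres (fun v hv => hSE v hv _ hrE hres)
    have h2 : ∑ v ∈ S, (Q.wt v : ℝ) * (Q.ord v r : ℝ) = 0 := by exact_mod_cast h1
    have h3 : ∑ v ∈ S, (Q.wt v : ℝ) * ρ v =
        (∑ v ∈ S, (Q.wt v : ℝ) * (Q.ord v r : ℝ)) / (d * ((d : ℝ) - 1)) := by
      rw [Finset.sum_div]
      apply Finset.sum_congr rfl
      intro v _
      simp only [hρ]
      ring
    rw [h3, h2, zero_div]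
  have hwt : ∀ v, (0 : ℝ) ≤ Q.wt v := fun v => by exact_mod_cast Q.wt_nonneg v
  have hwt1 : ∀ v, (1 : ℝ) ≤ Q.wt v := fun v => by exact_mod_cast Q.wt_one v
  have hpair : ∀ x ∈ P, ∀ y ∈ P, x ≠ y → ∑ v ∈ S, (Q.wt v : ℝ) * GG Q v (a v) (ρ v) x y = 0 := by
    intro x hx y hy hxy
    have h1 := prod_zero Q S (x - y) (sub_ne_zero.mpr hxy) fun v hv => hS1 v hv x hx y hy hxy
    have h2 : ∑ v ∈ S, (Q.wt v : ℝ) * (Q.ord v (x - y) : ℝ) = 0 := by exact_mod_cast h1
    have h3 : ∀ v, (Q.wt v : ℝ) * GG Q v (a v) (ρ v) x y = (Q.wt v : ℝ) * (Q.ord v (x - y) : ℝ) -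
        (Q.wt v : ℝ) * a v x - (Q.wt v : ℝ) * a v y + (Q.wt v : ℝ) * ρ v := by
      intro v
      unfold GG
      ring
    simp_rw [h3]
    rw [Finset.sum_add_distrib, Finset.sum_sub_distrib, Finset.sum_sub_distrib, h2, hwa x hx,
      hwa y hy, hwρ]
    ring
  have hGG0 : ∀ v, v ∉ S → ∀ x ∈ P, ∀ y ∈ P, x ≠ y → GG Q v (a v) (ρ v) x y = 0 := by
    intro v hv x hx y hy hxy
    unfold GG
    rw [hS1 v hv x hx y hy hxy, (hS2 v hv).1 x hx, (hS2 v hv).1 y hy, (hS2 v hv).2]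
    simp
  have hgood : ∀ v, (L v).R = 0 → ∀ x ∈ P, ∀ y ∈ P, x ≠ y → 0 ≤ GG Q v (a v) (ρ v) x y := by
    intro v hv x hx y hy hxy
    rw [(L v).GG_good hv hx hy hxy]
    exact Nat.cast_nonneg _
  have hna : ∀ T ⊆ P, ∀ α β γ : K, (∀ x ∈ T, Q.D x = α * x ^ 2 + β * x + γ) →
      P.card < (d + 1) * (P \ T).card + (3 * d + 4) := by
    intro T hT α β γ hq2
    by_contra hcon
    push Not at hcon
    exact hiso (conj_of_cross p q d hp hq hd hco P hP T hT
      (fun x0 h0 x1 h1 x2 h2 x hx _ _ _ _ _ => cross_of_quad Q T α β γ hq2 x0 x1 x2 x h0 h1 h2 hx)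
      hcon)
  have hloss := hQ d hd S a ρ L hS1 hwa hwρ
  have hH := hglob k K Q S P a ρ L (by omega) hS1 hS2 hS3 hwa hwρ (by
    intro m hm hmM b _ F hF
    apply functional_countR Q p q d hd hp hq hco P hP m hna _ b F hF
    have h1 : (m + 3) * (d + 1) ≤ (M + 3) * (d + 1) := Nat.mul_le_mul_right _ (by omega)
    omega) (by
    intro v hR
    exact hloc k K Q v p q hp hq hco hbic P hP (a v) (ha v) (ρ v) rfl (L v) hR (by omega)) (by
    refine hloss.trans (le_of_eq ?_)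
    push_cast
    ring)
  -- all places are good
  have hR0 : ∀ v, (L v).R = 0 := by
    intro v
    by_cases hv : v ∈ S
    · have h1 := (Finset.sum_eq_zero_iff_of_nonneg (fun v _ => mul_nonneg (hwt v)
        (Nat.cast_nonneg _))).mp hH v hv
      rcases mul_eq_zero.mp h1 with h2 | h2
      · have := hwt1 v
        linarith
      · exact_mod_cast h2
    · exact R_zero hd (L v) hqP (hGG0 v hv)
  have hGGz : ∀ v, ∀ x ∈ P, ∀ y ∈ P, x ≠ y → GG Q v (a v) (ρ v) x y = 0 := by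
    intro v x hx y hy hxy
    by_cases hv : v ∈ S
    · have h1 := (Finset.sum_eq_zero_iff_of_nonneg (fun v _ => mul_nonneg (hwt v)
        (hgood v (hR0 v) x hx y hy hxy))).mp (hpair x hx y hy hxy) v hv
      rcases mul_eq_zero.mp h1 with h2 | h2
      · have := hwt1 v
        linarith
      · exact h2
    · exact hGG0 v hv x hx y hy hxy
  obtain ⟨x, hx, hxx2, hxc⟩ := hex
  by_cases hxx0 : x = x0
  · apply hxc 0
    rw [hxx0]
    unfold cross
    simp
  have n1 := sub_ne_zero.mpr hxx0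
  have n2 := sub_ne_zero.mpr h12
  have n3 := sub_ne_zero.mpr hxx2
  have n4 := sub_ne_zero.mpr h01.symm
  obtain ⟨s, hs⟩ := Q.const (((x - x0) * (x1 - x2)) / ((x - x2) * (x1 - x0)))
    (div_ne_zero (mul_ne_zero n1 n2) (mul_ne_zero n3 n4)) (by
    intro v
    rw [PlaceData.ord_div (mul_ne_zero n1 n2) (mul_ne_zero n3 n4), Q.ord_mul v _ _ n1 n2,
      Q.ord_mul v _ _ n3 n4]
    have g1 := hGGz v x hx x0 hx0 hxx0
    have g2 := hGGz v x1 hx1 x2 hx2 h12
    have g3 := hGGz v x hx x2 hx2 hxx2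
    have g4 := hGGz v x1 hx1 x0 hx0 h01.symm
    unfold GG at g1 g2 g3 g4
    have g5 : (Q.ord v (x - x0) : ℝ) + Q.ord v (x1 - x2) -
        (Q.ord v (x - x2) + Q.ord v (x1 - x0)) = 0 := by linarith
    have g6 : Q.ord v (x - x0) + Q.ord v (x1 - x2) -
        (Q.ord v (x - x2) + Q.ord v (x1 - x0)) = 0 := by exact_mod_cast g5
    omega)
  exact hxc s hs.symm

end Pool.Agent.Y706.BI
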