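import Pool.Agent.Y706.BI.Loc
import Pool.Agent.Y706.BI.FinA

/-!
# Project BI: descent to the field of the cross ratios
-/

namespace Pool.Agent.Y706.BI

open Pool.Agent.W277.UB Pool.Agent.W277.UG Pool.Agent.W277.UH Finset Polynomial

universe u v w

lemma hc_map {M N : Type*} [Field M] [Field N] (j : M →+* N) (d : ℕ) (u P Q : M[X]) :
    (Pool.Agent.W277.UH.hc d u P Q).map j =
      Pool.Agent.W277.UH.hc d (u.map j) (P.map j) (Q.map j) := by
  unfold Pool.Agent.W277.UH.hc hev
  rw [Polynomial.map_sum]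
  apply Finset.sum_congr rfl
  intro i _
  simp

lemma Cj.map {M N : Type*} [Field M] [Field N] (j : M →+* N) {d : ℕ} {a b c e : M}
    {p q u w : M[X]} (h : Cj d a b c e p q u w) :
    Cj d (j a) (j b) (j c) (j e) (p.map j) (q.map j) (u.map j) (w.map j) := by
  obtain ⟨h1, s, hs, h2, h3⟩ := h
  refine ⟨?_, j s, (map_ne_zero j).mpr hs, ?_, ?_⟩
  · have : j a * j e - j b * j c = j (a * e - b * c) := by simp
    rw [this]
    exact (map_ne_zero j).mpr h1
  · have := congrArg (Polynomial.map j) h2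
    rw [hc_map] at this
    simpa using this
  · have := congrArg (Polynomial.map j) h3
    rw [hc_map] at this
    simpa using this

open Classical in
/-- the coordinate in `E` -/
noncomputable def phE (E : Type v) {L : Type u} [Field E] [Field L] [Algebra E L]
    (x0 x1 x2 x : L) : Option E :=
  if h : x ≠ x2 ∧ ∃ s : E, algebraMap E L s = cross x0 x1 x2 x then some h.2.choose else none

section
variable {E : Type v} {L : Type u} [Field E] [Field L] [Algebra E L] {x0 x1 x2 x : L}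

lemma phE_none : phE E x0 x1 x2 x2 = none := by
  unfold phE
  rw [dif_neg]
  rintro ⟨h, _⟩
  exact h rfl

lemma phE_some (s : E) (hs : algebraMap E L s = cross x0 x1 x2 x) (hx : x ≠ x2) :
    phE E x0 x1 x2 x = some s := by
  unfold phE
  have h : x ≠ x2 ∧ ∃ s : E, algebraMap E L s = cross x0 x1 x2 x := ⟨hx, s, hs⟩
  rw [dif_pos h]
  congr 1
  apply (algebraMap E L).injective
  rw [h.2.choose_spec, hs]

lemma phE_elim (h01 : x0 ≠ x1) (hx : x ≠ x2 → ∃ s : E, algebraMap E L s = cross x0 x1 x2 x) :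
    (phE E x0 x1 x2 x).elim ((x1 - x0) * x + -(x2 * (x1 - x0)) = 0) fun s =>
      (x1 - x0) * x + -(x2 * (x1 - x0)) ≠ 0 ∧
        algebraMap E L s * ((x1 - x0) * x + -(x2 * (x1 - x0))) =
          (x1 - x2) * x + -(x0 * (x1 - x2)) := by
  have n4 := sub_ne_zero.mpr h01.symm
  by_cases h : x = x2
  · rw [h, phE_none]
    show (x1 - x0) * x2 + -(x2 * (x1 - x0)) = 0
    ring
  · obtain ⟨s, hs⟩ := hx h
    rw [phE_some s hs h]
    have n3 := sub_ne_zero.mpr h
    have e1 : (x1 - x0) * x + -(x2 * (x1 - x0)) = (x - x2) * (x1 - x0) := by ring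
    show (x1 - x0) * x + -(x2 * (x1 - x0)) ≠ 0 ∧
        algebraMap E L s * ((x1 - x0) * x + -(x2 * (x1 - x0))) =
          (x1 - x2) * x + -(x0 * (x1 - x2))
    rw [e1]
    refine ⟨mul_ne_zero n3 n4, ?_⟩
    rw [hs]
    unfold cross
    rw [div_mul_cancel₀ _ (mul_ne_zero n3 n4)]
    ring

lemma cross_inj {y : L} (h01 : x0 ≠ x1) (h02 : x0 ≠ x2) (h12 : x1 ≠ x2) (hx : x ≠ x2)
    (hy : y ≠ x2) (h : cross x0 x1 x2 x = cross x0 x1 x2 y) : x = y := by
  unfold cross at h
  have n4 := sub_ne_zero.mpr h01.symm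
  have n1 := sub_ne_zero.mpr hx
  have n2 := sub_ne_zero.mpr hy
  have n5 := sub_ne_zero.mpr h12
  have n6 := sub_ne_zero.mpr h02
  rw [div_eq_div_iff (mul_ne_zero n1 n4) (mul_ne_zero n2 n4)] at h
  have h1 : (x1 - x2) * (x1 - x0) * (x0 - x2) * (x - y) = 0 := by linear_combination h
  rcases mul_eq_zero.mp h1 with h2 | h2
  · exact absurd h2 (mul_ne_zero (mul_ne_zero n5 n4) n6)
  · exact sub_eq_zero.mp h2

end

theorem finB_aux (hDSC : S_DSC.{u, u}) (hCJB : S_CJB.{u}) (hCJC : S_CJC.{u, u, u})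
    (hCJP : S_CJP.{u, u}) (hAFF : S_AFF.{u, u}) (k E L : Type u) [Field k] [Infinite k] [Field E]
    [Field L] [Algebra k E] [Algebra E L] [Algebra k L] [IsScalarTower k E L]
    [Algebra.IsAlgebraic E L] [DecidableEq L] (d : ℕ) (hd : 2 ≤ d) (p q : L[X])
    (hp : p.natDegree ≤ d) (hq : q.natDegree = d) (hco : IsCoprime p q)
    (hbic : Bic d (p.map (algebraMap L (AlgebraicClosure L)))
      (q.map (algebraMap L (AlgebraicClosure L))))
    (P : Finset L) (hP : ∀ z ∈ P, q.eval z ≠ 0 ∧ p.eval z / q.eval z ∈ P)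
    (hcard : 4 * d + 4 ≤ P.card) (x0 x1 x2 : L) (hx0 : x0 ∈ P) (hx1 : x1 ∈ P) (hx2 : x2 ∈ P)
    (h01 : x0 ≠ x1) (h02 : x0 ≠ x2) (h12 : x1 ≠ x2)
    (hE : ∀ x ∈ P, x ≠ x2 → ∃ s : E, algebraMap E L s = cross x0 x1 x2 x) :
    ∃ (p2 q2 : E[X]) (P2 : Finset E) (y0 y1 y2 : E), p2.natDegree ≤ d ∧ q2.natDegree = d ∧
      IsCoprime p2 q2 ∧ Bic d (p2.map (algebraMap E (AlgebraicClosure E)))
        (q2.map (algebraMap E (AlgebraicClosure E))) ∧
      (∀ z ∈ P2, q2.eval z ≠ 0 ∧ p2.eval z / q2.eval z ∈ P2) ∧ y0 ∈ P2 ∧ y1 ∈ P2 ∧ y2 ∈ P2 ∧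
      y0 ≠ y1 ∧ y0 ≠ y2 ∧ y1 ≠ y2 ∧ P2.card = P.card ∧
      (∀ s : E, (∃ y ∈ P2, y ≠ y2 ∧ s = cross y0 y1 y2 y) ↔
        ∃ x ∈ P, x ≠ x2 ∧ algebraMap E L s = cross x0 x1 x2 x) ∧
      (ConjConst k p2 q2 d → ConjConst k p q d) := by
  classical
  have : Infinite E := Infinite.of_injective _ (algebraMap k E).injective
  have : Infinite L := Infinite.of_injective _ (algebraMap k L).injective
  have : Infinite (AlgebraicClosure L) :=
    Infinite.of_injective _ (algebraMap L (AlgebraicClosure L)).injective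
  have n4 := sub_ne_zero.mpr h01.symm
  have n5 := sub_ne_zero.mpr h12
  have n6 := sub_ne_zero.mpr h02
  obtain ⟨u, w, huw, hmax, hcj⟩ := hDSC E L d hd p q hp hq hco P hP hcard x0 hx0 x1 hx1 x2 hx2
    h01 h02 h12 hE
  have hud : u.natDegree ≤ d := hmax ▸ le_max_left _ _
  have hwd : w.natDegree ≤ d := hmax ▸ le_max_right _ _
  have hφ : ∀ x ∈ P, _ := fun x hx => phE_elim (E := E) (x := x) (x2 := x2) h01 (hE x hx)
  set P1 : Finset (Option E) := P.image (phE E x0 x1 x2) with hP1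
  have hst1 : ∀ z ∈ P1, ratP1 u w d z ∈ P1 := by
    intro z hz
    rw [hP1, Finset.mem_image] at hz
    obtain ⟨x, hx, rfl⟩ := hz
    have h1 := hCJP E L d _ _ _ _ p q u w (by omega) hp hq.le huw hmax hcj x _ _ _ (hP x hx).1 rfl
      (hφ x hx) (hφ _ (hP x hx).2)
    rw [h1]
    exact Finset.mem_image_of_mem _ (hP x hx).2
  have hinj1 : Set.InjOn (phE E x0 x1 x2) (P : Set L) := by
    intro x hx y hy hxy
    have hx' : x ∈ P := hx
    have hy' : y ∈ P := hy
    by_cases h1 : x = x2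
    · by_cases h2 : y = x2
      · rw [h1, h2]
      · obtain ⟨s, hs⟩ := hE y hy' h2
        rw [h1, phE_none, phE_some s hs h2] at hxy
        exact absurd hxy (by simp)
    · obtain ⟨s, hs⟩ := hE x hx' h1
      by_cases h2 : y = x2
      · rw [h2, phE_none, phE_some s hs h1] at hxy
        exact absurd hxy (by simp)
      · obtain ⟨s', hs'⟩ := hE y hy' h2
        rw [phE_some s hs h1, phE_some s' hs' h2] at hxy
        have h3 : s = s' := Option.some.inj hxy
        apply cross_inj h01 h02 h12 h1 h2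
        rw [← hs, ← hs', h3]
  have hcard1 : P1.card = P.card := Finset.card_image_of_injOn hinj1
  obtain ⟨c, ⟨c', hc'⟩, hcP, hd1, hd2, hco2, hinj2, hst2, hcj2⟩ := hAFF k E d hd u w huw hmax P1
    hst1
  set p2 := pc d w c with hp2
  set q2 := pc d (u - C c * w) c with hq2
  have e0 : phE E x0 x1 x2 x0 = some 0 := by
    apply phE_some 0 _ h02
    unfold cross
    simp
  have e1 : phE E x0 x1 x2 x1 = some 1 := by
    apply phE_some 1 _ h12
    unfold cross
    rw [map_one, mul_comm, div_self (mul_ne_zero n5 n4)]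
  have e2 : phE E x0 x1 x2 x2 = none := phE_none
  have m0 : some (0 : E) ∈ P1 := e0 ▸ Finset.mem_image_of_mem _ hx0
  have m1 : some (1 : E) ∈ P1 := e1 ▸ Finset.mem_image_of_mem _ hx1
  have m2 : (none : Option E) ∈ P1 := e2 ▸ Finset.mem_image_of_mem _ hx2
  have c0 : c ≠ 0 := fun h => hcP (h ▸ m0)
  have c1 : c ≠ 1 := fun h => hcP (h ▸ m1)
  have c1' : 1 - c ≠ 0 := sub_ne_zero.mpr c1.symm
  have v0 : phc c (some 0) = -c⁻¹ := by
    show (0 - c)⁻¹ = _
    rw [zero_sub, inv_neg]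
  have v1 : phc c (some 1) = (1 - c)⁻¹ := rfl
  have v2 : phc c (none : Option E) = 0 := rfl
  -- the cross ratio
  have hcross : ∀ s : E, s ≠ c → cross (-c⁻¹) (1 - c)⁻¹ 0 (s - c)⁻¹ = s := by
    intro s hs
    have hs' := sub_ne_zero.mpr hs
    unfold cross
    have g1 : (s - c)⁻¹ - -c⁻¹ = s / (c * (s - c)) := by
      field_simp
      ring
    have g2 : (1 - c)⁻¹ - -c⁻¹ = 1 / (c * (1 - c)) := by
      field_simp
      ring
    rw [g1, g2, sub_zero, sub_zero]
    field_simp
  refine ⟨p2, q2, P1.image (phc c), -c⁻¹, (1 - c)⁻¹, 0, hd1, hd2, hco2, ?_, hst2, ?_, ?_, ?_, ?_,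
    ?_, ?_, ?_, ?_, ?_⟩
  · -- bicritical
    have b1 := hcj.map (algebraMap L (AlgebraicClosure L))
    have hdeg : ∀ (f : L[X]), f.natDegree ≤ d →
        (f.map (algebraMap L (AlgebraicClosure L))).natDegree ≤ d :=
      fun f hf => natDegree_map_le.trans hf
    have b2 := hCJB (AlgebraicClosure L) d _ _ _ _ _ _ _ _ (hdeg _ hp) (hdeg _ hq.le)
      (hdeg _ (natDegree_map_le.trans hud)) (hdeg _ (natDegree_map_le.trans hwd)) b1 hbic
    rw [Polynomial.map_map, Polynomial.map_map,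
      ← IsScalarTower.algebraMap_eq E L (AlgebraicClosure L)] at b2
    have b3 := hcj2.map (algebraMap E (AlgebraicClosure L))
    have b4 := hCJB (AlgebraicClosure L) d _ _ _ _ _ _ _ _ (natDegree_map_le.trans hud)
      (natDegree_map_le.trans hwd) (natDegree_map_le.trans hd1)
      (natDegree_map_le.trans hd2.le) b3 b2
    have : Algebra.IsAlgebraic E (AlgebraicClosure L) := Algebra.IsAlgebraic.trans E L _
    let j : AlgebraicClosure L →ₐ[E] AlgebraicClosure E := IsAlgClosed.lift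
    have b5 := b4.map j.toRingHom
    have b6 : j.toRingHom.comp (algebraMap E (AlgebraicClosure L)) =
        algebraMap E (AlgebraicClosure E) := by
      ext x
      exact j.commutes x
    rw [Polynomial.map_map, Polynomial.map_map, b6] at b5
    exact b5
  · exact v0 ▸ Finset.mem_image_of_mem _ m0
  · exact v1 ▸ Finset.mem_image_of_mem _ m1
  · exact v2 ▸ Finset.mem_image_of_mem _ m2
  · intro h
    have h1 := hinj2 (Finset.mem_coe.mpr m0) (Finset.mem_coe.mpr m1) (by rw [v0, v1]; exact h)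
    have h2 := Option.some.inj h1
    exact zero_ne_one h2
  · intro h
    have h1 := hinj2 (Finset.mem_coe.mpr m0) (Finset.mem_coe.mpr m2) (by rw [v0, v2]; exact h)
    exact absurd h1 (by simp)
  · intro h
    have h1 := hinj2 (Finset.mem_coe.mpr m1) (Finset.mem_coe.mpr m2) (by rw [v1, v2]; exact h)
    exact absurd h1 (by simp)
  · rw [Finset.card_image_of_injOn hinj2, hcard1]
  · intro s
    constructor
    · rintro ⟨y, hy, hy0, rfl⟩
      rw [Finset.mem_image] at hy
      obtain ⟨z, hz, rfl⟩ := hy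
      rw [hP1, Finset.mem_image] at hz
      obtain ⟨x, hx, rfl⟩ := hz
      by_cases hxx : x = x2
      · exfalso
        apply hy0
        rw [hxx, phE_none]
        rfl
      · obtain ⟨s, hs⟩ := hE x hx hxx
        refine ⟨x, hx, hxx, ?_⟩
        rw [phE_some s hs hxx]
        have hsc : s ≠ c := by
          rintro rfl
          apply hcP
          rw [← phE_some s hs hxx]
          exact Finset.mem_image_of_mem _ hx
        have h3 : phc c (some s) = (s - c)⁻¹ := rfl
        rw [h3, hcross s hsc, hs]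
    · rintro ⟨x, hx, hxx, hs⟩
      have hsc : s ≠ c := by
        rintro rfl
        apply hcP
        rw [← phE_some s hs hxx]
        exact Finset.mem_image_of_mem _ hx
      refine ⟨phc c (some s), Finset.mem_image_of_mem _ ?_, ?_, ?_⟩
      · rw [← phE_some s hs hxx]
        exact Finset.mem_image_of_mem _ hx
      · show (s - c)⁻¹ ≠ 0
        exact inv_ne_zero (sub_ne_zero.mpr hsc)
      · have h3 : phc c (some s) = (s - c)⁻¹ := rfl
        rw [h3, hcross s hsc]
  · intro h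
    have h1 : ConjConst k u w d := by
      refine hCJC k E E d 0 1 1 (-c) u w p2 q2 hud hwd hd1 hd2.le ?_ h
      rw [Algebra.algebraMap_self, Polynomial.map_id, Polynomial.map_id]
      exact hcj2
    exact hCJC k E L d _ _ _ _ p q u w hp hq.le hud hwd hcj h1

end Pool.Agent.Y706.BI
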