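import Pool.Agent.Y706.BI.FinC
import Pool.Agent.Y706.P11

/-!
# Project BI: further statements
-/

namespace Pool.Agent.Y706.BI

open Pool.Agent.W277.UB Pool.Agent.W277.UG Pool.Agent.W277.UH Polynomial NumberField Filter Topology

universe u v w

/-- with coefficients algebraic over `k` after a conjugation over `F` -/
def IsoAlg (k : Type*) {F : Type*} [Field k] [Field F] [Algebra k F] (p q : F[X]) (d : ℕ) : Prop :=
  ∃ a b c e : F, a * e - b * c ≠ 0 ∧ ∃ u w : F[X], (u ≠ 0 ∨ w ≠ 0) ∧
    u.natDegree ≤ d ∧ w.natDegree ≤ d ∧ (∀ n, IsAlgebraic k (u.coeff n)) ∧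
    (∀ n, IsAlgebraic k (w.coeff n)) ∧
    (C a * p + C b * q) * ∑ i ∈ Finset.range (d + 1),
      C (w.coeff i) * (C a * X + C b) ^ i * (C c * X + C e) ^ (d - i) =
    (C c * p + C e * q) * ∑ i ∈ Finset.range (d + 1),
      C (u.coeff i) * (C a * X + C b) ^ i * (C c * X + C e) ^ (d - i)

/-- the final theorem of the project -/
def S_FIN : Prop := ∃ N : ℕ → ℕ → ℕ, ∀ (k : Type v) (L : Type u) [Field k] [CharZero k] [Field L]
    [Algebra k L] (t : L), Transcendental k t →
    FiniteDimensional (IntermediateField.adjoin k {t}) L →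
    ∀ (n d : ℕ), Module.finrank (IntermediateField.adjoin k {t}) L ≤ n → 2 ≤ d →
    ∀ p q : L[X], IsCoprime p q → max p.natDegree q.natDegree = d →
    (d = 2 ∨ Bic d (p.map (algebraMap L (AlgebraicClosure L)))
      (q.map (algebraMap L (AlgebraicClosure L)))) →
    ¬ IsoAlg k p q d →
    {z : Option L | (Set.range fun m : ℕ => (ratP1 p q d)^[m] z).Finite}.encard ≤
      ((N n d : ℕ) : ℕ∞)

/-- points of bounded degree -/
def S_BDG : Prop := ∃ N : ℕ → ℕ → ℕ → ℕ, ∀ (k : Type v) (L : Type u) [Field k] [CharZero k]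
    [Field L] [Algebra k L] (t : L), Transcendental k t →
    FiniteDimensional (IntermediateField.adjoin k {t}) L →
    ∀ (n D d : ℕ), Module.finrank (IntermediateField.adjoin k {t}) L ≤ n → 2 ≤ d →
    ∀ p q : L[X], IsCoprime p q → max p.natDegree q.natDegree = d →
    (d = 2 ∨ Bic d (p.map (algebraMap L (AlgebraicClosure L)))
      (q.map (algebraMap L (AlgebraicClosure L)))) →
    ¬ IsoAlg k (p.map (algebraMap L (AlgebraicClosure L)))
      (q.map (algebraMap L (AlgebraicClosure L))) d →
    {z : Option (AlgebraicClosure L) | (Set.range fun m : ℕ =>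
        (ratP1 (p.map (algebraMap L (AlgebraicClosure L)))
          (q.map (algebraMap L (AlgebraicClosure L))) d)^[m] z).Finite ∧
      ∀ x, z = some x → ∃ E : IntermediateField L (AlgebraicClosure L), FiniteDimensional L E ∧
        Module.finrank L E ≤ D ∧ x ∈ E}.encard ≤ ((N n D d : ℕ) : ℕ∞)

/-- The vectors of integers of `k` whose coordinates with respect to the basis `ω` are at most `H`
in absolute value. -/
def box {k : Type} [Field k] {J : Type} (ω : Module.Basis J ℤ (𝓞 k)) (m H : ℕ) :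
    Set (Fin (m + 1) → 𝓞 k) :=
  {v | ∀ l j, |ω.repr (v l) j| ≤ (H : ℤ)}

/-- The set `S` contains 100% of the vectors in the boxes. -/
def AlmostAll {k : Type} [Field k] {J : Type} (ω : Module.Basis J ℤ (𝓞 k)) (m : ℕ)
    (S : Set (Fin (m + 1) → 𝓞 k)) : Prop :=
  Tendsto (fun H : ℕ => (({v | v ∈ box ω m H ∧ v ∈ S}.ncard : ℝ) / ((box ω m H).ncard : ℝ)))
    atTop (𝓝 1)

/-- The field `k(t_1, ..., t_m)`. -/
abbrev RF (k : Type) [Field k] (m : ℕ) : Type := FractionRing (MvPolynomial (Fin m) k)

/-- The subfield `k(t_j : j ≠ i)` of the field `k(t_1, ..., t_m)`. -/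
noncomputable def others (k : Type) [Field k] {m : ℕ} (i : Fin m) : Subfield (RF k m) :=
  (IntermediateField.adjoin k {x : RF k m | ∃ j, j ≠ i ∧
    x = algebraMap (MvPolynomial (Fin m) k) (RF k m) (MvPolynomial.X j)}).toSubfield

/-- `P ∈ k[t_1, ..., t_m][x]` as a polynomial over `k(t_1, ..., t_m)`. -/
noncomputable def generic {k : Type} [Field k] {m : ℕ} (P : (MvPolynomial (Fin m) k)[X]) :
    (RF k m)[X] :=
  P.map (algebraMap (MvPolynomial (Fin m) k) (RF k m))

/-- `P ∈ k[t_1, ..., t_m][x]` as a polynomial over an algebraic closure of `k(t_1, ..., t_m)`. -/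
noncomputable def genBar {k : Type} [Field k] {m : ℕ} (P : (MvPolynomial (Fin m) k)[X]) :
    (AlgebraicClosure (RF k m))[X] :=
  (generic P).map (algebraMap (RF k m) (AlgebraicClosure (RF k m)))

/-- The specialisation of `P ∈ k[t_1, ..., t_m][x]` at `t = (v_1 / v_0, ..., v_m / v_0)`. -/
noncomputable def special {k : Type} [Field k] {m : ℕ} (v : Fin (m + 1) → 𝓞 k)
    (P : (MvPolynomial (Fin m) k)[X]) : k[X] :=
  P.map (MvPolynomial.eval fun l : Fin m =>
    algebraMap (𝓞 k) k (v l.succ) / algebraMap (𝓞 k) k (v 0))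

/-- the preperiodic points of degree at most `B` over `k` in the projective line over an algebraic
closure of `k` -/
noncomputable def preperB {k : Type} [Field k] (p q : k[X]) (d B : ℕ) :
    Set (Option (AlgebraicClosure k)) :=
  {z | (Set.range fun n : ℕ => (ratP1 (p.map (algebraMap k (AlgebraicClosure k)))
      (q.map (algebraMap k (AlgebraicClosure k))) d)^[n] z).Finite ∧
    ∀ x, z = some x → (minpoly k x).natDegree ≤ B}

/-- families over number fields, points of bounded degree -/
def S_FAM : Prop := ∃ N : ℕ → ℕ → ℕ, ∀ (k : Type) [Field k] [NumberField k] (J : Type) [Fintype J]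
    (ω : Module.Basis J ℤ (𝓞 k)) (d B : ℕ), 2 ≤ d → 1 ≤ B →
    ∀ (m : ℕ) (P Q : (MvPolynomial (Fin m) k)[X]) (i : Fin m),
      max P.natDegree Q.natDegree = d → IsCoprime (generic P) (generic Q) →
      (d = 2 ∨ Bic d (genBar P) (genBar Q)) →
      ¬ IsoAlg (others k i) (genBar P) (genBar Q) d →
      AlmostAll ω m {v | v 0 ≠ 0 ∧ IsCoprime (special v P) (special v Q) ∧
        max (special v P).natDegree (special v Q).natDegree = d ∧
        (preperB (special v P) (special v Q) d B).encard ≤ ((N B d : ℕ) : ℕ∞)}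

end Pool.Agent.Y706.BI
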